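import Pool.Agent.H313R3.TK.G

/-!
# Fourier integrals of the Mertens function and the local mass

`Ph ρ x = ∫_0^x e^{-ρu} M(e^u) du`.  For `Re ρ = 1/2` and a kernel `Sg g` dominated by the weight `W`,
`(∫ e^{-ρv} Sg g (v) dv) · Ph ρ Z = ∫_0^Z e^{-ρt} (∫_{z ≤ t} g) dt + O(1 + e^{-Z/2} Am Z)`,
where `Am Z = ∫ |M(e^{Z-v})| kp(v) dv` is the local mass at `Z`.
-/

open Complex MeasureTheory Filter Topology Set Metric

set_option linter.unusedSectionVars false
set_option linter.unusedVariables false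
set_option autoImplicit false

namespace Pool.Agent.Q212.WS

open H313.TK

noncomputable section

/-- the local mass of the Mertens function -/
def Am (t : ℝ) : ℝ := ∫ v : ℝ, |mm (t - v)| * kp v

theorem Am_nonneg (t : ℝ) : 0 ≤ Am t := integral_nonneg fun v => mul_nonneg (abs_nonneg _) (kp_nonneg v)

theorem abs_int (t : ℝ) : Integrable (fun v => |mm (t - v)| * kp v) := by
  have hm := mm_meas
  exact avg_int (fun u => |mm u|) (by fun_prop) (fun u => by rw [abs_abs]; exact abs_mm_le u) t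

/-- the Fourier integral -/
def Ph (ρ : ℂ) (x : ℝ) : ℂ := ∫ u in (0:ℝ)..x, cexp (-ρ * u) * (mm u : ℂ)

theorem tw_le (ρ : ℂ) (hρ : ρ.re = 1 / 2) (u : ℝ) : ‖cexp (-ρ * u) * (mm u : ℂ)‖ ≤ Real.exp (u / 2) := by
  rw [norm_mul, norm_tw, Complex.norm_real, Real.norm_eq_abs, hρ]
  calc Real.exp (-(1 / 2) * u) * |mm u| ≤ Real.exp (-(1 / 2) * u) * Real.exp u :=
        mul_le_mul_of_nonneg_left (abs_mm_le u) (Real.exp_pos _).le
    _ = _ := by rw [← Real.exp_add]; congr 1; ring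

theorem tw_meas (ρ : ℂ) : Measurable (fun u : ℝ => cexp (-ρ * u) * (mm u : ℂ)) := by
  have hm := mm_meas
  fun_prop

theorem tw_ii (ρ : ℂ) (hρ : ρ.re = 1 / 2) (a b : ℝ) :
    IntervalIntegrable (fun u : ℝ => cexp (-ρ * u) * (mm u : ℂ)) volume a b := by
  refine ((by fun_prop : Continuous fun u : ℝ => Real.exp (u / 2)).intervalIntegrable a b).mono_fun
    (tw_meas ρ).aestronglyMeasurable (ae_of_all _ fun u => ?_)
  beta_reduce
  rw [Real.norm_of_nonneg (Real.exp_pos _).le]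
  exact tw_le ρ hρ u

theorem Ph_cont (ρ : ℂ) (hρ : ρ.re = 1 / 2) : Continuous (Ph ρ) :=
  intervalIntegral.continuous_primitive (fun a b => tw_ii ρ hρ a b) 0

theorem Ph_bd (ρ : ℂ) (hρ : ρ.re = 1 / 2) (x : ℝ) : ‖Ph ρ x‖ ≤ 2 * Real.exp |x| := by
  have h1 : ‖Ph ρ x‖ ≤ Real.exp (|x| / 2) * |x - 0| := by
    refine intervalIntegral.norm_integral_le_of_norm_le_const fun u hu => ?_
    refine (tw_le ρ hρ u).trans (Real.exp_le_exp.2 ?_)
    have h2 : |u| ≤ |x| := by
      rcases le_total 0 x with h | h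
      · rw [uIoc_of_le h] at hu
        rw [abs_of_nonneg h, abs_of_nonneg hu.1.le]
        exact hu.2
      · rw [uIoc_of_ge h] at hu
        rw [abs_of_nonpos h, abs_of_nonpos hu.2]
        linarith [hu.1]
    have := le_abs_self u
    linarith
  rw [sub_zero] at h1
  refine h1.trans ?_
  have h3 : |x| / 2 ≤ Real.exp (|x| / 2) := by
    have := Real.add_one_le_exp (|x| / 2)
    linarith
  have h4 : Real.exp |x| = Real.exp (|x| / 2) * Real.exp (|x| / 2) := by
    rw [← Real.exp_add]; congr 1; ring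
  rw [h4]
  have := Real.exp_pos (|x| / 2)
  nlinarith

theorem Ph_shift (ρ : ℂ) (hρ : ρ.re = 1 / 2) (Z v : ℝ) :
    ∫ t in (0:ℝ)..Z, cexp (-ρ * ((t - v : ℝ) : ℂ)) * (mm (t - v) : ℂ) = Ph ρ (Z - v) - Ph ρ (-v) := by
  have h1 := intervalIntegral.integral_comp_sub_right (a := (0:ℝ)) (b := Z)
    (fun u : ℝ => cexp (-ρ * (u : ℂ)) * (mm u : ℂ)) v
  rw [h1]
  unfold Ph
  rw [zero_sub, intervalIntegral.integral_interval_sub_left (tw_ii ρ hρ _ _) (tw_ii ρ hρ _ _)]

theorem kern_bd {K : ℝ → ℂ} {C : ℝ} (hC : 0 ≤ C) (hb : ∀ v, ‖K v‖ ≤ C * W v) (ρ : ℂ) (hρ : ρ.re = 1 / 2) (v : ℝ) :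
    ‖cexp (-ρ * v) * K v‖ * Real.exp |v| ≤ 4 * C * Real.exp (-(1 * |v|)) := by
  rw [norm_mul, norm_tw, hρ]
  have h1 : Real.exp (-(1 / 2) * v) * Real.exp |v| ≤ Real.exp (2 * |v|) := by
    rw [← Real.exp_add]
    refine Real.exp_le_exp.2 ?_
    have := neg_abs_le v
    have := abs_nonneg v
    linarith
  have h2 := W_decay v
  have h3 := W_pos v
  calc Real.exp (-(1 / 2) * v) * ‖K v‖ * Real.exp |v| = ‖K v‖ * (Real.exp (-(1 / 2) * v) * Real.exp |v|) := by ring
    _ ≤ (C * W v) * Real.exp (2 * |v|) := mul_le_mul (hb v) h1 (by positivity) (by positivity)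
    _ = C * (W v * Real.exp (2 * |v|)) := by ring
    _ ≤ C * (4 * Real.exp (-|v|)) := mul_le_mul_of_nonneg_left h2 hC
    _ = _ := by rw [one_mul]; ring

theorem kern_int {K : ℝ → ℂ} (hK : DK K) (ρ : ℂ) (hρ : ρ.re = 1 / 2) (c : ℝ) :
    Integrable (fun v : ℝ => (cexp (-ρ * v) * K v) * Ph ρ (c - v)) := by
  obtain ⟨C, hC, hb⟩ := hK.bd
  have hc := hK.cont
  have hP := Ph_cont ρ hρ
  refine ((int_exp_abs 1 one_pos).const_mul (2 * Real.exp |c| * (4 * C))).mono' ?_ (ae_of_all _ fun v => ?_)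
  · exact (by fun_prop : Continuous fun v : ℝ => (cexp (-ρ * v) * K v) * Ph ρ (c - v)).aestronglyMeasurable
  · rw [norm_mul]
    have h1 : ‖Ph ρ (c - v)‖ ≤ 2 * Real.exp |c| * Real.exp |v| := by
      refine (Ph_bd ρ hρ _).trans ?_
      rw [mul_assoc, ← Real.exp_add]
      refine mul_le_mul_of_nonneg_left (Real.exp_le_exp.2 ?_) (by norm_num)
      exact abs_sub _ _
    calc ‖cexp (-ρ * v) * K v‖ * ‖Ph ρ (c - v)‖ ≤ ‖cexp (-ρ * v) * K v‖ * (2 * Real.exp |c| * Real.exp |v|) :=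
          mul_le_mul_of_nonneg_left h1 (norm_nonneg _)
      _ = 2 * Real.exp |c| * (‖cexp (-ρ * v) * K v‖ * Real.exp |v|) := by ring
      _ ≤ 2 * Real.exp |c| * (4 * C * Real.exp (-(1 * |v|))) :=
          mul_le_mul_of_nonneg_left (kern_bd hC hb ρ hρ v) (by positivity)
      _ = _ := by ring

/-- exchange of the integrations -/
theorem fub {K : ℝ → ℂ} (hK : DK K) (ρ : ℂ) (hρ : ρ.re = 1 / 2) {Z : ℝ} (hZ : 0 ≤ Z) :
    ∫ t in (0:ℝ)..Z, cexp (-ρ * t) * ∫ v : ℝ, (mm (t - v) : ℂ) * K v =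
      ∫ v : ℝ, (cexp (-ρ * v) * K v) * (Ph ρ (Z - v) - Ph ρ (-v)) := by
  obtain ⟨C, hC, hb⟩ := hK.bd
  have hc := hK.cont
  have hm := mm_meas
  rw [intervalIntegral.integral_of_le hZ]
  have hf : Integrable (fun t : ℝ => 4 * C * (Real.exp (-ρ.re * t) * Real.exp t)) (volume.restrict (Ioc 0 Z)) :=
    ((by fun_prop : Continuous fun t : ℝ => 4 * C * (Real.exp (-ρ.re * t) * Real.exp t)).integrableOn_Ioc)
  have hint : Integrable (Function.uncurry fun (t : ℝ) (v : ℝ) => cexp (-ρ * t) * ((mm (t - v) : ℂ) * K v))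
      ((volume.restrict (Ioc 0 Z)).prod volume) := by
    refine (hf.mul_prod (int_exp_abs 1 one_pos)).mono' ?_ (ae_of_all _ fun p => ?_)
    · exact (by fun_prop : Measurable fun p : ℝ × ℝ => cexp (-ρ * p.1) * ((mm (p.1 - p.2) : ℂ) * K p.2)).aestronglyMeasurable
    · obtain ⟨t, v⟩ := p
      simp only [Function.uncurry]
      rw [norm_mul, norm_tw, norm_mul, Complex.norm_real, Real.norm_eq_abs]
      have h1 : |mm (t - v)| * ‖K v‖ ≤ C * (Real.exp (t - v) * W v) := by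
        calc |mm (t - v)| * ‖K v‖ ≤ Real.exp (t - v) * (C * W v) :=
              mul_le_mul (abs_mm_le _) (hb v) (norm_nonneg _) (Real.exp_pos _).le
          _ = _ := by ring
      calc Real.exp (-ρ.re * t) * (|mm (t - v)| * ‖K v‖) ≤ Real.exp (-ρ.re * t) * (C * (4 * Real.exp t * Real.exp (-(1 * |v|)))) :=
            mul_le_mul_of_nonneg_left (h1.trans (mul_le_mul_of_nonneg_left (kpW t v) hC)) (Real.exp_pos _).le
        _ = _ := by ring
  have e1 : ∫ t in Ioc 0 Z, cexp (-ρ * t) * ∫ v : ℝ, (mm (t - v) : ℂ) * K v =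
      ∫ t in Ioc 0 Z, ∫ v : ℝ, cexp (-ρ * t) * ((mm (t - v) : ℂ) * K v) := by
    refine setIntegral_congr_fun measurableSet_Ioc fun t _ => ?_
    exact (integral_const_mul _ _).symm
  rw [e1, integral_integral_swap hint]
  refine integral_congr_ae (ae_of_all _ fun v => ?_)
  simp only
  rw [← Ph_shift ρ hρ, ← intervalIntegral.integral_const_mul, intervalIntegral.integral_of_le hZ]
  refine setIntegral_congr_fun measurableSet_Ioc fun t _ => ?_
  have e2 : cexp (-ρ * t) = cexp (-ρ * v) * cexp (-ρ * ((t - v : ℝ) : ℂ)) := by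
    rw [← Complex.exp_add]
    congr 1
    push_cast
    ring
  rw [e2]
  ring

/-- the pointwise bound of the increment -/
theorem incr {K : ℝ → ℂ} {C : ℝ} (hC : 0 ≤ C) (hb : ∀ v, ‖K v‖ ≤ C * W v) (ρ : ℂ) (hρ : ρ.re = 1 / 2) (Z v : ℝ) :
    ‖(cexp (-ρ * v) * K v) * (Ph ρ (Z - v) - Ph ρ Z)‖ ≤
      8 * C * Real.exp (-(Z / 2)) * ∫ w : ℝ, (|mm (Z - w)| * kp w) * Real.exp (-(1 * |v - w|)) := by
  have hm := mm_meas
  have hkp := kp_cont
  -- the increment as an integral over `w` between `0` and `v`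
  have e1 : Ph ρ (Z - v) - Ph ρ Z = -∫ w in (0:ℝ)..v, cexp (-ρ * ((Z - w : ℝ) : ℂ)) * (mm (Z - w) : ℂ) := by
    have h1 := intervalIntegral.integral_comp_sub_left (a := (0:ℝ)) (b := v)
      (fun u : ℝ => cexp (-ρ * (u : ℂ)) * (mm u : ℂ)) Z
    rw [h1, sub_zero]
    unfold Ph
    rw [intervalIntegral.integral_interval_sub_left (tw_ii ρ hρ _ _) (tw_ii ρ hρ _ _),
      intervalIntegral.integral_symm]
  have e2 : ‖Ph ρ (Z - v) - Ph ρ Z‖ ≤ ∫ w in uIoc 0 v, Real.exp (-((Z - w) / 2)) * |mm (Z - w)| := by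
    rw [e1, norm_neg]
    refine (intervalIntegral.norm_integral_le_integral_norm_uIoc).trans (le_of_eq ?_)
    refine setIntegral_congr_fun measurableSet_uIoc fun w _ => ?_
    rw [norm_mul, norm_tw, hρ, Complex.norm_real, Real.norm_eq_abs]
    congr 2
    ring
  have hI : Integrable (fun w : ℝ => (|mm (Z - w)| * kp w) * Real.exp (-(1 * |v - w|))) := by
    refine (abs_int Z).mono' ?_ (ae_of_all _ fun w => ?_)
    · exact (by fun_prop : Measurable fun w : ℝ => (|mm (Z - w)| * kp w) * Real.exp (-(1 * |v - w|))).aestronglyMeasurable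
    · have h0 : 0 ≤ |mm (Z - w)| * kp w := mul_nonneg (abs_nonneg _) (kp_nonneg w)
      rw [Real.norm_of_nonneg (mul_nonneg h0 (Real.exp_pos _).le)]
      exact mul_le_of_le_one_right h0 (Real.exp_le_one_iff.2 (by
        have := abs_nonneg (v - w)
        linarith))
  have hfin : IntegrableOn (fun w : ℝ => Real.exp (-((Z - w) / 2)) * |mm (Z - w)|) (uIoc 0 v) := by
    have h1 : IntegrableOn (fun w : ℝ => Real.exp (-((Z - w) / 2)) * Real.exp (Z - w)) (uIoc 0 v) :=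
      ((by fun_prop : Continuous fun w : ℝ => Real.exp (-((Z - w) / 2)) * Real.exp (Z - w)).intervalIntegrable 0 v).def'
    refine h1.mono' ?_ (ae_of_all _ fun w => ?_)
    · exact (by fun_prop : Measurable fun w : ℝ => Real.exp (-((Z - w) / 2)) * |mm (Z - w)|).aestronglyMeasurable
    · rw [Real.norm_of_nonneg (by positivity)]
      exact mul_le_mul_of_nonneg_left (abs_mm_le _) (Real.exp_pos _).le
  rw [norm_mul]
  have e3 : ‖cexp (-ρ * v) * K v‖ ≤ C * W v * Real.exp (-(v / 2)) := by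
    rw [norm_mul, norm_tw, hρ]
    calc Real.exp (-(1 / 2) * v) * ‖K v‖ ≤ Real.exp (-(1 / 2) * v) * (C * W v) :=
          mul_le_mul_of_nonneg_left (hb v) (Real.exp_pos _).le
      _ = C * W v * Real.exp (-(1 / 2) * v) := by ring
      _ = _ := by congr 2; ring
  have hW := W_pos v
  calc ‖cexp (-ρ * v) * K v‖ * ‖Ph ρ (Z - v) - Ph ρ Z‖ ≤
        (C * W v * Real.exp (-(v / 2))) * ∫ w in uIoc 0 v, Real.exp (-((Z - w) / 2)) * |mm (Z - w)| :=
        mul_le_mul e3 e2 (norm_nonneg _) (by positivity)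
    _ = ∫ w in uIoc 0 v, (C * W v * Real.exp (-(v / 2))) * (Real.exp (-((Z - w) / 2)) * |mm (Z - w)|) :=
        (integral_const_mul _ _).symm
    _ ≤ ∫ w in uIoc 0 v, 8 * C * Real.exp (-(Z / 2)) * ((|mm (Z - w)| * kp w) * Real.exp (-(1 * |v - w|))) := by
        refine setIntegral_mono_on (hfin.const_mul _) (hI.integrableOn.const_mul _) measurableSet_uIoc fun w hw => ?_
        have hdom : (v ≤ w ∧ w ≤ 0) ∨ (0 ≤ w ∧ w ≤ v) := by
          rcases le_total 0 v with h | h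
          · rw [uIoc_of_le h] at hw
            exact Or.inr ⟨hw.1.le, hw.2⟩
          · rw [uIoc_of_ge h] at hw
            exact Or.inl ⟨hw.1.le, hw.2⟩
        have h1 := W_dom w v hdom
        have h2 := (kp_bounds w).1
        have hr : |w - v| = |v - w| := abs_sub_comm _ _
        rw [hr] at h1
        set r := |v - w| with hr'
        have hr0 : 0 ≤ r := abs_nonneg _
        have h3 : Real.exp (-(v / 2)) ≤ Real.exp (-(w / 2)) * Real.exp (2 * r) := by
          rw [← Real.exp_add]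
          refine Real.exp_le_exp.2 ?_
          have := neg_abs_le (v - w)
          rw [← hr'] at this
          linarith
        have h4 : W v * Real.exp (-(v / 2)) ≤ 8 * kp w * Real.exp (-(w / 2)) * Real.exp (-r) := by
          calc W v * Real.exp (-(v / 2)) ≤ W v * (Real.exp (-(w / 2)) * Real.exp (2 * r)) :=
                mul_le_mul_of_nonneg_left h3 hW.le
            _ = Real.exp (-(w / 2)) * (W v * Real.exp (2 * r)) := by ring
            _ ≤ Real.exp (-(w / 2)) * (4 * W w * Real.exp (-r)) := mul_le_mul_of_nonneg_left h1 (Real.exp_pos _).le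
            _ ≤ Real.exp (-(w / 2)) * (8 * kp w * Real.exp (-r)) := by
                refine mul_le_mul_of_nonneg_left (mul_le_mul_of_nonneg_right ?_ (Real.exp_pos _).le) (Real.exp_pos _).le
                linarith
            _ = _ := by ring
        have h5 : Real.exp (-((Z - w) / 2)) = Real.exp (-(Z / 2)) * Real.exp (w / 2) := by
          rw [← Real.exp_add]; congr 1; ring
        have h6 : Real.exp (-(w / 2)) * Real.exp (w / 2) = 1 := by
          rw [← Real.exp_add, neg_add_cancel, Real.exp_zero]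
        have h7 : 0 ≤ C * (Real.exp (-((Z - w) / 2)) * |mm (Z - w)|) := by positivity
        calc (C * W v * Real.exp (-(v / 2))) * (Real.exp (-((Z - w) / 2)) * |mm (Z - w)|)
            = (W v * Real.exp (-(v / 2))) * (C * (Real.exp (-((Z - w) / 2)) * |mm (Z - w)|)) := by ring
          _ ≤ (8 * kp w * Real.exp (-(w / 2)) * Real.exp (-r)) * (C * (Real.exp (-((Z - w) / 2)) * |mm (Z - w)|)) :=
              mul_le_mul_of_nonneg_right h4 h7
          _ = 8 * C * Real.exp (-(Z / 2)) * ((|mm (Z - w)| * kp w) * Real.exp (-r)) * (Real.exp (-(w / 2)) * Real.exp (w / 2)) := by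
              rw [h5]; ring
          _ = _ := by rw [h6, mul_one, one_mul]
    _ ≤ ∫ w : ℝ, 8 * C * Real.exp (-(Z / 2)) * ((|mm (Z - w)| * kp w) * Real.exp (-(1 * |v - w|))) := by
        refine setIntegral_le_integral (hI.const_mul _) (ae_of_all _ fun w => ?_)
        have := kp_nonneg w
        show 0 ≤ 8 * C * Real.exp (-(Z / 2)) * ((|mm (Z - w)| * kp w) * Real.exp (-(1 * |v - w|)))
        positivity
    _ = _ := integral_const_mul _ _

/-- the mass of the smoothed local mass -/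
theorem conv_mass (Z : ℝ) :
    Integrable (fun v : ℝ => ∫ w : ℝ, (|mm (Z - w)| * kp w) * Real.exp (-(1 * |v - w|))) ∧
    ∫ v : ℝ, ∫ w : ℝ, (|mm (Z - w)| * kp w) * Real.exp (-(1 * |v - w|)) = Am Z * ∫ x : ℝ, Real.exp (-(1 * |x|)) := by
  have h1 : Integrable (fun p : ℝ × ℝ => (|mm (Z - p.2)| * kp p.2) * Real.exp (-(1 * |p.1 - p.2|)))
      (volume.prod volume) :=
    (abs_int Z).convolution_integrand (ContinuousLinearMap.mul ℝ ℝ) (int_exp_abs 1 one_pos)
  refine ⟨h1.integral_prod_left, ?_⟩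
  rw [integral_integral_swap (f := fun (v w : ℝ) => (|mm (Z - w)| * kp w) * Real.exp (-(1 * |v - w|))) h1]
  have e1 : ∀ w : ℝ, ∫ v : ℝ, (|mm (Z - w)| * kp w) * Real.exp (-(1 * |v - w|)) =
      (|mm (Z - w)| * kp w) * ∫ x : ℝ, Real.exp (-(1 * |x|)) := by
    intro w
    rw [integral_const_mul, integral_sub_right_eq_self (fun x => Real.exp (-(1 * |x|))) w]
  simp_rw [e1]
  rw [integral_mul_const]
  rfl

/-- **The Fourier integral up to the local mass.** -/
theorem main {g : ℝ → ℂ} (hg : QQ g) (hD : DK (Sg g)) (ρ : ℂ) (hρ : ρ.re = 1 / 2) :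
    ∃ C : ℝ, 0 < C ∧ ∀ Z : ℝ, 0 ≤ Z →
      ‖(∫ v : ℝ, cexp (-ρ * v) * Sg g v) * Ph ρ Z - ∫ t in (0:ℝ)..Z, cexp (-ρ * t) * ∫ z in Iic t, g z‖ ≤
        C * (1 + Real.exp (-(Z / 2)) * Am Z) := by
  obtain ⟨C, hC, hb⟩ := hD.bd
  set D : ℝ := ∫ x : ℝ, Real.exp (-(1 * |x|)) with hDd
  have hD0 : 0 ≤ D := integral_nonneg fun x => (Real.exp_pos _).le
  set N : ℝ := ‖∫ v : ℝ, (cexp (-ρ * v) * Sg g v) * Ph ρ (0 - v)‖ with hN
  refine ⟨N + 8 * C * D + 1, by positivity, fun Z hZ => ?_⟩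
  have e0 : ∫ t in (0:ℝ)..Z, cexp (-ρ * t) * ∫ z in Iic t, g z =
      ∫ v : ℝ, (cexp (-ρ * v) * Sg g v) * (Ph ρ (Z - v) - Ph ρ (-v)) := by
    rw [← fub hD ρ hρ hZ]
    refine intervalIntegral.integral_congr fun t _ => ?_
    rw [moeb hg t]
  have hre : |ρ.re| ≤ 2 := by rw [hρ]; norm_num
  have i1 := kern_int hD ρ hρ Z
  have i2 := kern_int hD ρ hρ 0
  have i3 := (tw_int hD ρ hre).mul_const (Ph ρ Z)
  have i4 : Integrable (fun v : ℝ => (cexp (-ρ * v) * Sg g v) * (Ph ρ (Z - v) - Ph ρ Z)) := by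
    refine (i1.sub i3).congr (ae_of_all _ fun v => ?_)
    simp only [Pi.sub_apply]
    ring
  have e1 : (∫ v : ℝ, cexp (-ρ * v) * Sg g v) * Ph ρ Z - ∫ v : ℝ, (cexp (-ρ * v) * Sg g v) * (Ph ρ (Z - v) - Ph ρ (-v)) =
      (∫ v : ℝ, (cexp (-ρ * v) * Sg g v) * Ph ρ (0 - v)) -
        ∫ v : ℝ, (cexp (-ρ * v) * Sg g v) * (Ph ρ (Z - v) - Ph ρ Z) := by
    rw [← integral_mul_const, ← integral_sub i3 (by
      refine (i1.sub i2).congr (ae_of_all _ fun v => ?_)
      simp only [Pi.sub_apply, zero_sub]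
      ring), ← integral_sub i2 i4]
    refine integral_congr_ae (ae_of_all _ fun v => ?_)
    simp only [zero_sub]
    ring
  rw [e0, e1]
  obtain ⟨j1, j2⟩ := conv_mass Z
  have e2 : ‖∫ v : ℝ, (cexp (-ρ * v) * Sg g v) * (Ph ρ (Z - v) - Ph ρ Z)‖ ≤
      8 * C * Real.exp (-(Z / 2)) * (Am Z * D) := by
    rw [← j2, ← integral_const_mul]
    exact norm_integral_le_of_norm_le (j1.const_mul _) (ae_of_all _ fun v => incr hC hb ρ hρ Z v)
  refine (norm_sub_le _ _).trans ?_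
  have h1 : 0 ≤ Real.exp (-(Z / 2)) * Am Z := mul_nonneg (Real.exp_pos _).le (Am_nonneg Z)
  have hN0 : 0 ≤ N := norm_nonneg _
  have h2 : 0 ≤ N * (Real.exp (-(Z / 2)) * Am Z) := mul_nonneg hN0 h1
  have h3 : 0 ≤ 8 * C * D := by positivity
  have h4 : 8 * C * Real.exp (-(Z / 2)) * (Am Z * D) = (8 * C * D) * (Real.exp (-(Z / 2)) * Am Z) := by ring
  nlinarith

end

end Pool.Agent.Q212.WS
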