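import Pool.Agent.Q212.WS.A
import Pool.Agent.H313R3.TK.J

/-!
# The Fourier integral at a simple zero and away from the zeros; local mass from a one-sided bound
-/

open Complex MeasureTheory Filter Topology Set Metric

set_option linter.unusedSectionVars false
set_option linter.unusedVariables false
set_option autoImplicit false

namespace Pool.Agent.Q212.WS

open H313.TK

noncomputable section

/-- integrals of twisted functions of linear growth are bounded -/
theorem lin_bd (ρ : ℂ) (hρ : ρ.re = 1 / 2) (f : ℝ → ℂ) (a b : ℝ) (ha : 0 ≤ a) (hb : 0 ≤ b)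
    (hf : ∀ t : ℝ, 0 ≤ t → ‖f t‖ ≤ a + b * t) {Z : ℝ} (hZ : 0 ≤ Z) :
    ‖∫ t in (0:ℝ)..Z, cexp (-ρ * t) * f t‖ ≤ 4 * (a + 4 * b) := by
  have h1 : ‖∫ t in (0:ℝ)..Z, cexp (-ρ * t) * f t‖ ≤ ∫ t in (0:ℝ)..Z, (a + 4 * b) * Real.exp (-(t / 4)) := by
    refine intervalIntegral.norm_integral_le_of_norm_le hZ (ae_of_all _ fun t ht => ?_)
      ((by fun_prop : Continuous fun t : ℝ => (a + 4 * b) * Real.exp (-(t / 4))).intervalIntegrable _ _)
    rw [norm_mul, norm_tw, hρ]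
    have ht0 : 0 ≤ t := ht.1.le
    have h2 : a + b * t ≤ (a + 4 * b) * Real.exp (t / 4) := by
      have h3 := Real.add_one_le_exp (t / 4)
      have h4 : 1 ≤ Real.exp (t / 4) := Real.one_le_exp (by positivity)
      nlinarith [mul_le_mul_of_nonneg_left h3 hb, mul_le_mul_of_nonneg_left h4 ha]
    calc Real.exp (-(1 / 2) * t) * ‖f t‖ ≤ Real.exp (-(1 / 2) * t) * ((a + 4 * b) * Real.exp (t / 4)) :=
          mul_le_mul_of_nonneg_left ((hf t ht0).trans h2) (Real.exp_pos _).le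
      _ = (a + 4 * b) * (Real.exp (-(1 / 2) * t) * Real.exp (t / 4)) := by ring
      _ = _ := by rw [← Real.exp_add]; congr 2; ring
  refine h1.trans ?_
  rw [intervalIntegral.integral_const_mul]
  have h2 : ∫ t in (0:ℝ)..Z, Real.exp (-(t / 4)) = (-4 * Real.exp (-(Z / 4))) - (-4 * Real.exp (-(0 / 4))) := by
    refine intervalIntegral.integral_eq_sub_of_hasDerivAt (f := fun t : ℝ => -4 * Real.exp (-(t / 4))) (fun t _ => ?_)
      ((by fun_prop : Continuous fun t : ℝ => Real.exp (-(t / 4))).intervalIntegrable _ _)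
    have h3 : HasDerivAt (fun t : ℝ => -(t / 4)) (-(1 / 4)) t := ((hasDerivAt_id t).div_const 4).neg
    refine (h3.exp.const_mul (-4)).congr_deriv ?_
    ring
  rw [h2]
  have h3 := Real.exp_pos (-(Z / 4))
  simp only [zero_div, neg_zero, Real.exp_zero]
  have h4 : 0 ≤ a + 4 * b := by positivity
  nlinarith

/-- the moment of the new kernel, general form -/
theorem moment {g : ℝ → ℂ} (hg : DK g) (ρ : ℂ) (hβ : |ρ.re| ≤ 1)
    (h0 : ∫ z : ℝ, cexp (-ρ * z) * g z = 0) :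
    ∫ z : ℝ, cexp (-ρ * z) * Ist ρ g z = -∫ z : ℝ, (z : ℂ) * (cexp (-ρ * z) * g z) := by
  have hi := tw_int hg ρ (by linarith)
  have hcont : Continuous fun z : ℝ => cexp (-ρ * z) * g z := by
    have := hg.cont
    fun_prop
  set A : ℝ → ℂ := fun v : ℝ => ∫ z in Iic v, cexp (-ρ * z) * g z with hA
  have hA' : ∀ v : ℝ, HasDerivAt A (cexp (-ρ * v) * g v) v := prim_cont hcont fun v => hi.integrableOn
  have hD := Ist_DK hg ρ (by linarith) h0
  have hAI : ∀ v : ℝ, cexp (-ρ * v) * Ist ρ g v = A v := by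
    intro v
    unfold Ist
    rw [← mul_assoc, ← Complex.exp_add, show -ρ * (v : ℂ) + ρ * v = 0 by ring, Complex.exp_zero, one_mul]
  have hAint : Integrable A := by
    have := tw_int hD ρ (by linarith)
    refine this.congr (ae_of_all _ fun v => ?_)
    exact hAI v
  -- weighted integrability
  have hw : ∀ f : ℝ → ℂ, DK f → Integrable (fun z : ℝ => (z : ℂ) * (cexp (-ρ * z) * f z)) := by
    intro f hf
    obtain ⟨C, hC, hb⟩ := hf.bd
    have hc := hf.cont
    refine (((int_exp_abs 1 one_pos).const_mul (4 * C))).mono' ?_ (ae_of_all _ fun z => ?_)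
    · exact (by fun_prop : Continuous fun z : ℝ => (z : ℂ) * (cexp (-ρ * z) * f z)).aestronglyMeasurable
    · rw [norm_mul, norm_mul, norm_tw, one_mul, Complex.norm_real, Real.norm_eq_abs]
      have h1 : Real.exp (-ρ.re * z) ≤ Real.exp (|z|) := by
        refine Real.exp_le_exp.2 ?_
        calc -ρ.re * z ≤ |-ρ.re * z| := le_abs_self _
          _ = |ρ.re| * |z| := by rw [abs_mul, abs_neg]
          _ ≤ 1 * |z| := mul_le_mul_of_nonneg_right hβ (abs_nonneg _)
          _ = |z| := one_mul _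
      have h2 : |z| ≤ Real.exp |z| := by
        have := Real.add_one_le_exp |z|
        linarith
      calc |z| * (Real.exp (-ρ.re * z) * ‖f z‖) ≤ Real.exp |z| * (Real.exp |z| * (C * W z)) := by
            refine mul_le_mul h2 ?_ (by positivity) (Real.exp_pos _).le
            exact mul_le_mul h1 (hb z) (norm_nonneg _) (Real.exp_pos _).le
        _ = C * (W z * Real.exp (2 * |z|)) := by
            rw [two_mul, Real.exp_add]; ring
        _ ≤ C * (4 * Real.exp (-|z|)) := mul_le_mul_of_nonneg_left (W_decay z) hC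
        _ = _ := by ring
  have hzA : Integrable (fun z : ℝ => (z : ℂ) * A z) := by
    refine (hw _ hD).congr (ae_of_all _ fun v => ?_)
    show (v : ℂ) * (cexp (-ρ * v) * Ist ρ g v) = v * A v
    rw [hAI]
  have key := integral_mul_deriv_eq_deriv_mul_of_integrable (u := A) (u' := fun v : ℝ => cexp (-ρ * v) * g v)
    (v := fun v : ℝ => (v : ℂ)) (v' := fun _ => 1) (fun v _ => hA' v)
    (fun v _ => (hasDerivAt_id v).ofReal_comp)
    (by
      refine hAint.congr (ae_of_all _ fun v => ?_)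
      simp)
    (by
      refine (hw g hg).congr (ae_of_all _ fun v => ?_)
      simp only [Pi.mul_apply]
      ring)
    (by
      refine hzA.congr (ae_of_all _ fun v => ?_)
      simp only [Pi.mul_apply]
      ring)
  simp only [mul_one] at key
  rw [integral_congr_ae (ae_of_all _ hAI), key]
  congr 1
  refine integral_congr_ae (ae_of_all _ fun v => ?_)
  simp only
  ring

/-- the derivative of the transform at a zero -/
theorem Kh_simple (ρ : ℂ) (hz : riemannZeta ρ = 0) (h0 : 0 < ρ.re) (h1 : ρ.re < 1) :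
    ∫ v : ℝ, (v : ℂ) * (cexp (-ρ * v) * (kp v : ℂ)) = -(deriv riemannZeta ρ * qh ρ) := by
  have hne : ρ ≠ 1 := by rintro rfl; simp at h1
  have d1 := Kh_deriv ρ (by rw [abs_of_pos h0]; linarith)
  have d2 := (differentiableAt_riemannZeta hne).hasDerivAt.mul (qh_deriv ρ (by rw [abs_of_pos h0]; linarith))
  have he : Kh =ᶠ[𝓝 ρ] fun s => riemannZeta s * qh s := by
    have hV : {s : ℂ | 0 < s.re ∧ s.re < 1} ∈ 𝓝 ρ :=
      IsOpen.mem_nhds ((isOpen_lt continuous_const Complex.continuous_re).inter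
        (isOpen_lt Complex.continuous_re continuous_const)) ⟨h0, h1⟩
    filter_upwards [hV] with z hz
    exact Kh_eq z hz.1 (by linarith [hz.2]) (by rintro rfl; have := hz.2; simp at this)
  have d3 := d2.congr_of_eventuallyEq he
  have h5 := d1.unique d3
  rw [hz, zero_mul, add_zero] at h5
  simp_rw [neg_mul] at h5
  rw [integral_neg] at h5
  rw [← h5, neg_neg]
  simp only [neg_mul]

/-- away from the zeros -/
theorem away (ρ : ℂ) (hρ : ρ.re = 1 / 2) (hz : riemannZeta ρ ≠ 0) :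
    ∃ C : ℝ, 0 < C ∧ ∀ Z : ℝ, 0 ≤ Z → ‖Ph ρ Z‖ ≤ C * (1 + Real.exp (-(Z / 2)) * Am Z) := by
  have h0 : 0 < ρ.re := by rw [hρ]; norm_num
  have h1 : ρ.re < 1 := by rw [hρ]; norm_num
  have hne : ρ ≠ 1 := by rintro rfl; simp at h1
  obtain ⟨C, hC, h⟩ := main qc_QQ (by rw [← kc_eq]; exact kc_DK) ρ hρ
  have hK : ∫ v : ℝ, cexp (-ρ * v) * Sg qc v = riemannZeta ρ * qh ρ := by
    rw [← Kh_eq ρ h0 (by linarith) hne, ← kc_eq]
    rfl
  rw [hK] at h
  set A : ℝ := ‖riemannZeta ρ * qh ρ‖ with hA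
  have hA0 : 0 < A := norm_pos_iff.2 (mul_ne_zero hz (qh_ne ρ h0 h1))
  set D : ℝ := 48 * ∫ x : ℝ, Real.exp (-(2 * |x|)) with hD
  have hD0 : 0 ≤ D := mul_nonneg (by norm_num) (integral_nonneg fun x => (Real.exp_pos _).le)
  have hq : ∀ t : ℝ, 0 ≤ t → ‖∫ z in Iic t, qc z‖ ≤ D + 0 * t := by
    intro t _
    rw [zero_mul, add_zero, hD, ← integral_const_mul]
    have hi : Integrable (fun x : ℝ => 48 * Real.exp (-(2 * |x|))) := (int_exp_abs 2 (by norm_num)).const_mul 48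
    refine (norm_integral_le_of_norm_le (g := fun x : ℝ => 48 * Real.exp (-(2 * |x|))) hi.integrableOn
      (ae_of_all _ fun z => qq_bd z)).trans ?_
    exact setIntegral_le_integral hi (ae_of_all _ fun x => by positivity)
  refine ⟨(C + 4 * D) / A, by positivity, fun Z hZ => ?_⟩
  have h2 := h Z hZ
  have h3 := lin_bd ρ hρ (fun t => ∫ z in Iic t, qc z) D 0 hD0 le_rfl hq hZ
  simp only [mul_zero, add_zero] at h3
  have h4 : A * ‖Ph ρ Z‖ ≤ C * (1 + Real.exp (-(Z / 2)) * Am Z) + 4 * D := by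
    rw [hA, ← norm_mul]
    calc ‖riemannZeta ρ * qh ρ * Ph ρ Z‖ = ‖(riemannZeta ρ * qh ρ * Ph ρ Z - ∫ t in (0:ℝ)..Z, cexp (-ρ * t) * ∫ z in Iic t, qc z) +
          ∫ t in (0:ℝ)..Z, cexp (-ρ * t) * ∫ z in Iic t, qc z‖ := by rw [sub_add_cancel]
      _ ≤ _ := (norm_add_le _ _).trans (add_le_add h2 h3)
  rw [div_mul_eq_mul_div, le_div_iff₀ hA0]
  have h5 : 0 ≤ Real.exp (-(Z / 2)) * Am Z := mul_nonneg (Real.exp_pos _).le (Am_nonneg Z)
  have h6 : 0 ≤ D * (Real.exp (-(Z / 2)) * Am Z) := mul_nonneg hD0 h5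
  nlinarith

/-- at a simple zero -/
theorem at_zero (ρ : ℂ) (hρ : ρ.re = 1 / 2) (hz : riemannZeta ρ = 0) (hz' : deriv riemannZeta ρ ≠ 0) :
    ∃ C : ℝ, 0 < C ∧ ∀ Z : ℝ, 0 ≤ Z →
      ‖Ph ρ Z - 1 / (ρ * deriv riemannZeta ρ) * Z‖ ≤ C * (1 + Real.exp (-(Z / 2)) * Am Z) := by
  have h0 : 0 < ρ.re := by rw [hρ]; norm_num
  have h1 : ρ.re < 1 := by rw [hρ]; norm_num
  have hne : ρ ≠ 0 := by rintro rfl; simp at h0
  have hQ := Ist_QQ qc_QQ ρ (by linarith)
  have hre : |ρ.re| ≤ 2 := by rw [abs_of_pos h0]; linarith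
  have hre1 : |ρ.re| ≤ 1 := by rw [abs_of_pos h0]; linarith
  have hS : Sg (Ist ρ qc) = Ist ρ kc := by
    funext v
    rw [kc_eq]
    exact (Sg_Ist qc_QQ ρ (by linarith) v).symm
  have hK0 := Kh_zero ρ hz h0 h1
  have hD1 : DK (Ist ρ kc) := Ist_DK kc_DK ρ hre hK0
  have hm : ∫ v : ℝ, cexp (-ρ * v) * Sg (Ist ρ qc) v = deriv riemannZeta ρ * qh ρ := by
    rw [hS, moment kc_DK ρ hre1 hK0]
    have := Kh_simple ρ hz h0 h1
    unfold kc
    rw [this, neg_neg]
  obtain ⟨C, hC, h⟩ := main hQ (by rw [hS]; exact hD1) ρ hρ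
  rw [hm] at h
  obtain ⟨C1, hC1, hasy⟩ := G1_asy ρ h0 h1
  have hqn := qh_ne ρ h0 h1
  set A : ℝ := ‖deriv riemannZeta ρ * qh ρ‖ with hA
  have hA0 : 0 < A := norm_pos_iff.2 (mul_ne_zero hz' hqn)
  refine ⟨(C + 4 * (C1 + 4 * 24)) / A, by positivity, fun Z hZ => ?_⟩
  have h2 := h Z hZ
  have h3 := lin_bd ρ hρ (fun t => (∫ z in Iic t, Ist ρ qc z) - qh ρ / ρ * cexp (ρ * t)) C1 24 hC1 (by norm_num) hasy hZ
  have hcont : Continuous (fun t : ℝ => ∫ z in Iic t, Ist ρ qc z) :=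
    continuous_iff_continuousAt.2 fun t => (prim_cont hQ.cont (fun v => hQ.int0 v) t).continuousAt
  have h4 : ∫ t in (0:ℝ)..Z, cexp (-ρ * t) * ((∫ z in Iic t, Ist ρ qc z) - qh ρ / ρ * cexp (ρ * t)) =
      (∫ t in (0:ℝ)..Z, cexp (-ρ * t) * ∫ z in Iic t, Ist ρ qc z) - qh ρ / ρ * Z := by
    have h5 : ∀ t : ℝ, cexp (-ρ * t) * ((∫ z in Iic t, Ist ρ qc z) - qh ρ / ρ * cexp (ρ * t)) =
        cexp (-ρ * t) * (∫ z in Iic t, Ist ρ qc z) - qh ρ / ρ := by
      intro t
      have h6 : cexp (-ρ * t) * cexp (ρ * t) = 1 := by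
        rw [← Complex.exp_add, show -ρ * (t : ℂ) + ρ * t = 0 by ring, Complex.exp_zero]
      rw [mul_sub, show cexp (-ρ * t) * (qh ρ / ρ * cexp (ρ * t)) = qh ρ / ρ * (cexp (-ρ * t) * cexp (ρ * t)) by ring,
        h6, mul_one]
    simp_rw [h5]
    rw [intervalIntegral.integral_sub ((by fun_prop : Continuous fun t : ℝ => cexp (-ρ * t) * ∫ z in Iic t, Ist ρ qc z).intervalIntegrable _ _)
      (continuous_const.intervalIntegrable _ _), intervalIntegral.integral_const, sub_zero, real_smul, mul_comm (Z : ℂ)]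
  rw [h4] at h3
  have h7 : A * ‖Ph ρ Z - 1 / (ρ * deriv riemannZeta ρ) * Z‖ ≤
      C * (1 + Real.exp (-(Z / 2)) * Am Z) + 4 * (C1 + 4 * 24) := by
    rw [hA, ← norm_mul]
    have h8 : deriv riemannZeta ρ * qh ρ * (Ph ρ Z - 1 / (ρ * deriv riemannZeta ρ) * Z) =
        (deriv riemannZeta ρ * qh ρ * Ph ρ Z - ∫ t in (0:ℝ)..Z, cexp (-ρ * t) * ∫ z in Iic t, Ist ρ qc z) +
          ((∫ t in (0:ℝ)..Z, cexp (-ρ * t) * ∫ z in Iic t, Ist ρ qc z) - qh ρ / ρ * Z) := by
      have h9 : deriv riemannZeta ρ * qh ρ * (1 / (ρ * deriv riemannZeta ρ) * Z) = qh ρ / ρ * Z := by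
        field_simp
      rw [mul_sub, h9]
      ring
    rw [h8]
    exact (norm_add_le _ _).trans (add_le_add h2 h3)
  have h5 : 0 ≤ Real.exp (-(Z / 2)) * Am Z := mul_nonneg (Real.exp_pos _).le (Am_nonneg Z)
  have h6 : 0 ≤ (4 * (C1 + 4 * 24)) * (Real.exp (-(Z / 2)) * Am Z) := mul_nonneg (by positivity) h5
  have h10 : A * ‖Ph ρ Z - 1 / (ρ * deriv riemannZeta ρ) * Z‖ ≤
      (C + 4 * (C1 + 4 * 24)) * (1 + Real.exp (-(Z / 2)) * Am Z) := by nlinarith
  calc ‖Ph ρ Z - 1 / (ρ * deriv riemannZeta ρ) * Z‖ = (A * ‖Ph ρ Z - 1 / (ρ * deriv riemannZeta ρ) * Z‖) / A :=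
        (mul_div_cancel_left₀ _ hA0.ne').symm
    _ ≤ ((C + 4 * (C1 + 4 * 24)) * (1 + Real.exp (-(Z / 2)) * Am Z)) / A :=
        div_le_div_of_nonneg_right h10 hA0.le
    _ = _ := by ring

/-- the local mass under a one-sided bound -/
theorem loc : ∃ C : ℝ, 0 < C ∧ ∀ Z : ℝ, 1 ≤ Z → ∀ s : ℝ, s = 1 ∨ s = -1 → ∀ K : ℝ, 1 ≤ K →
    (∀ u ∈ Icc (Z - Real.log Z / 2) (Z + Real.log Z / 2), s * mm u ≤ K * Real.exp (u / 2)) →
    Real.exp (-(Z / 2)) * Am Z ≤ C * K := by
  set E : ℝ := 48 * ∫ x : ℝ, Real.exp (-(2 * |x|)) with hE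
  have hE0 : 0 ≤ E := mul_nonneg (by norm_num) (integral_nonneg fun x => (Real.exp_pos _).le)
  have hC0 := C0_nonneg
  have hD1 := D1_nonneg
  refine ⟨24 * C0 * D1 + E + 1, by positivity, fun Z hZ s hs K hK hw => ?_⟩
  set a : ℝ := Real.log Z / 2 with ha
  have ha0 : 0 ≤ a := by rw [ha]; have := Real.log_nonneg hZ; positivity
  have hZ0 : 0 < Z := by linarith
  have hm := mm_meas
  have hkp := kp_cont
  have i1 := avg_int mm mm_meas abs_mm_le Z
  have i3 : Integrable (fun v => max (s * mm (Z - v)) 0 * kp v) :=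
    avg_int (fun u => max (s * mm u) 0) (by fun_prop) (fun u => (part_le s hs _).trans (abs_mm_le u)) Z
  have e1 : Am Z = 2 * (∫ v, max (s * mm (Z - v)) 0 * kp v) - s * ∫ v, mm (Z - v) * kp v := by
    unfold Am
    rw [← integral_const_mul, ← integral_const_mul, ← integral_sub (i3.const_mul 2) (i1.const_mul s)]
    refine integral_congr_ae (ae_of_all _ fun v => ?_)
    simp only
    rw [part_id s hs (mm (Z - v))]
    ring
  have e2 := avg_mm Z
  have e3 : |s * ∫ v, mm (Z - v) * kp v| ≤ E := by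
    rw [abs_mul]
    have : |s| = 1 := by rcases hs with h | h <;> rw [h] <;> simp
    rw [this, one_mul]
    exact e2
  have k2 := tail (fun u => max (s * mm u) 0) (by fun_prop) (fun u => le_max_right _ _)
    (fun u => (le_abs_self _).trans ((part_le s hs _).trans (abs_mm_le u))) Z a ha0
  obtain ⟨m1, m2⟩ := mass_le (1 / 2) (by norm_num) (by norm_num)
  have k3 : ∫ v in Icc (-a) a, max (s * mm (Z - v)) 0 * kp v ≤ K * Real.exp (Z / 2) * (4 * C0 * D1) := by
    calc ∫ v in Icc (-a) a, max (s * mm (Z - v)) 0 * kp v ≤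
          ∫ v in Icc (-a) a, K * Real.exp (Z / 2) * (Real.exp (-(1 / 2 * v)) * kp v) := by
          refine setIntegral_mono_on i3.integrableOn (m1.integrableOn.const_mul _) measurableSet_Icc fun v hv => ?_
          have h1 := hw (Z - v) ⟨by linarith [hv.2], by linarith [hv.1]⟩
          have h2 : max (s * mm (Z - v)) 0 ≤ K * Real.exp ((Z - v) / 2) := max_le h1 (by positivity)
          calc max (s * mm (Z - v)) 0 * kp v ≤ K * Real.exp ((Z - v) / 2) * kp v :=
                mul_le_mul_of_nonneg_right h2 (kp_nonneg v)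
            _ = _ := by
                rw [show (Z - v) / 2 = Z / 2 + -(1 / 2 * v) by ring, Real.exp_add]
                ring
      _ ≤ ∫ v, K * Real.exp (Z / 2) * (Real.exp (-(1 / 2 * v)) * kp v) := by
          refine setIntegral_le_integral (m1.const_mul _) (ae_of_all _ fun v => ?_)
          have := kp_nonneg v
          show 0 ≤ K * Real.exp (Z / 2) * (Real.exp (-(1 / 2 * v)) * kp v)
          positivity
      _ = K * Real.exp (Z / 2) * ∫ v, Real.exp (-(1 / 2 * v)) * kp v := integral_const_mul _ _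
      _ ≤ _ := mul_le_mul_of_nonneg_left m2 (by positivity)
  have k4 : Real.exp (Z + a) * W (-a) ≤ Real.exp (Z / 2) := by
    unfold W
    rw [← Real.exp_add]
    refine Real.exp_le_exp.2 ?_
    rw [max_eq_right (by linarith), abs_neg, abs_of_nonneg ha0]
    have e3 : 2 * a = Real.log Z := by rw [ha]; ring
    rw [e3, Real.exp_log hZ0]
    have h1 := Real.pi_gt_three
    have h2 : Real.log Z ≤ Z / 2 := by
      have h3 := Real.log_le_sub_one_of_pos (show 0 < Z / 2 by positivity)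
      rw [Real.log_div hZ0.ne' (by norm_num)] at h3
      have h4 := Real.log_two_lt_d9
      linarith
    nlinarith
  have k5 := (abs_le.1 e3).1
  have hB0 : 0 ≤ 8 * C0 * D1 := by positivity
  have k6 := mul_le_mul_of_nonneg_left k4 hB0
  have k7 : Am Z ≤ 2 * (K * Real.exp (Z / 2) * (4 * C0 * D1) + 8 * C0 * D1 * Real.exp (Z / 2)) + E := by
    rw [e1]
    linarith
  have k8 : Real.exp (-(Z / 2)) * Real.exp (Z / 2) = 1 := by
    rw [← Real.exp_add, neg_add_cancel, Real.exp_zero]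
  have k9 : Real.exp (-(Z / 2)) ≤ 1 := Real.exp_le_one_iff.2 (by linarith)
  have k10 := Real.exp_pos (-(Z / 2))
  calc Real.exp (-(Z / 2)) * Am Z ≤
        Real.exp (-(Z / 2)) * (2 * (K * Real.exp (Z / 2) * (4 * C0 * D1) + 8 * C0 * D1 * Real.exp (Z / 2)) + E) :=
        mul_le_mul_of_nonneg_left k7 k10.le
    _ = (Real.exp (-(Z / 2)) * Real.exp (Z / 2)) * (8 * C0 * D1 * K + 16 * C0 * D1) + Real.exp (-(Z / 2)) * E := by ring
    _ ≤ 1 * (8 * C0 * D1 * K + 16 * C0 * D1) + 1 * E := by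
        rw [k8]
        have := mul_le_mul_of_nonneg_right k9 hE0
        linarith
    _ ≤ (24 * C0 * D1 + E + 1) * K := by
        have h1 : 0 ≤ (16 * C0 * D1 + E) * (K - 1) := mul_nonneg (by positivity) (by linarith)
        nlinarith

open Classical in
/-- the Fourier coefficient -/
def cf (l : ℝ) : ℂ := if riemannZeta (1 / 2 + l * I) = 0 then
  1 / ((1 / 2 + l * I) * deriv riemannZeta (1 / 2 + l * I)) else 0

/-- **the logarithmic form** -/
theorem log_form (l : ℝ) (hl : riemannZeta (1 / 2 + l * I) = 0 → deriv riemannZeta (1 / 2 + l * I) ≠ 0) :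
    ∃ C : ℝ, 0 < C ∧ ∀ Z : ℝ, 1 ≤ Z → ∀ s : ℝ, s = 1 ∨ s = -1 → ∀ K : ℝ, 1 ≤ K →
    (∀ u ∈ Icc (Z - Real.log Z / 2) (Z + Real.log Z / 2), s * mm u ≤ K * Real.exp (u / 2)) →
    ‖Ph (1 / 2 + l * I) Z - cf l * Z‖ ≤ C * K := by
  have hρ : (1 / 2 + l * I : ℂ).re = 1 / 2 := by simp
  obtain ⟨C, hC, h⟩ : ∃ C : ℝ, 0 < C ∧ ∀ Z : ℝ, 0 ≤ Z →
      ‖Ph (1 / 2 + l * I) Z - cf l * Z‖ ≤ C * (1 + Real.exp (-(Z / 2)) * Am Z) := by
    by_cases hz : riemannZeta (1 / 2 + l * I) = 0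
    · have := at_zero _ hρ hz (hl hz)
      unfold cf
      rw [if_pos hz]
      exact this
    · have := away _ hρ hz
      unfold cf
      rw [if_neg hz]
      simpa using this
  obtain ⟨C1, hC1, h1⟩ := loc
  refine ⟨C * (1 + C1), by positivity, fun Z hZ s hs K hK hw => ?_⟩
  have h2 := h Z (by linarith)
  have h3 := h1 Z hZ s hs K hK hw
  calc ‖Ph (1 / 2 + l * I) Z - cf l * Z‖ ≤ C * (1 + Real.exp (-(Z / 2)) * Am Z) := h2
    _ ≤ C * (K + C1 * K) := mul_le_mul_of_nonneg_left (by linarith) hC.le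
    _ = _ := by ring

end

end Pool.Agent.Q212.WS
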