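import Pool.Agent.Q212.WS.B
import Pool.Agent.H307R2.LU

/-!
# Consequences: the power variable, Gonek's normalisation, the sharp bound for the coefficients
-/

open Complex MeasureTheory Filter Topology Set Metric

set_option linter.unusedSectionVars false
set_option linter.unusedVariables false
set_option autoImplicit false

namespace Pool.Agent.Q212.WS

open H313.TK

noncomputable section

/-- `ζ(1/2) ≠ 0` -/
theorem zeta_half_ne : riemannZeta (1 / 2 : ℂ) ≠ 0 := by
  have h0 : (0:ℝ) < 1 / 2 := by norm_num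
  have hne : (((1 / 2 : ℝ)) : ℂ) ≠ 1 := by
    intro h
    have : (1 / 2 : ℝ) = 1 := by exact_mod_cast h
    norm_num at this
  have e0 := Pool.Agent.H307R2.zeta_eq (N := 1) le_rfl (s := ((1 / 2 : ℝ) : ℂ)) (by simp) hne
  have e1 : Pool.Agent.H307R2.TM 1 Pool.Agent.H307R2.Ez ((1 / 2 : ℝ) : ℂ) =
      ((∫ t in Ioi ((1 : ℕ) : ℝ), (-(Int.fract t)) * t ^ (-((1 / 2 : ℝ) + 1)) : ℝ) : ℂ) := by
    unfold Pool.Agent.H307R2.TM
    rw [← integral_complex_ofReal]
    refine MeasureTheory.setIntegral_congr_fun measurableSet_Ioi fun t ht => ?_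
    have ht' : (1 : ℝ) < t := by simpa using ht
    have ht0 : 0 ≤ t := by linarith
    simp only [Pool.Agent.H307R2.Ez]
    rw [Complex.ofReal_mul, Complex.ofReal_cpow ht0]
    push_cast
    rfl
  have e2 : (∫ t in Ioi ((1 : ℕ) : ℝ), (-(Int.fract t)) * t ^ (-((1 / 2 : ℝ) + 1)) : ℝ) ≤ 0 := by
    apply MeasureTheory.setIntegral_nonpos measurableSet_Ioi
    intro t ht
    have ht' : (1 : ℝ) < t := by simpa using ht
    have : 0 ≤ Int.fract t * t ^ (-((1 / 2 : ℝ) + 1)) :=
      mul_nonneg (Int.fract_nonneg t) (Real.rpow_nonneg (by linarith) _)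
    linarith
  rw [e1] at e0
  set I := (∫ t in Ioi ((1 : ℕ) : ℝ), (-(Int.fract t)) * t ^ (-((1 / 2 : ℝ) + 1)) : ℝ) with hI
  have e3 : riemannZeta (1 / 2 : ℂ) = ((1 + 1 / ((1 / 2 : ℝ) - 1) + (1 / 2) * I : ℝ) : ℂ) := by
    have e4 : (((1 / 2 : ℝ)) : ℂ) = (1 / 2 : ℂ) := by push_cast; rfl
    rw [e4] at e0
    rw [e0]
    push_cast
    simp
  rw [e3]
  intro h
  have h2 : (1 + 1 / ((1 / 2 : ℝ) - 1) + (1 / 2) * I : ℝ) = 0 := by exact_mod_cast h
  norm_num at h2
  linarith

theorem cf_zero : cf 0 = 0 := by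
  unfold cf
  rw [if_neg]
  simpa using zeta_half_ne

/-- One-sided `o(√y log y)` on arbitrarily far windows gives RH and simplicity. -/
theorem cost {s : ℝ} (hs : s = 1 ∨ s = -1)
    (h : ∀ ε : ℝ, 0 < ε → ∃ᶠ x : ℝ in atTop, ∀ y ∈ Icc x (x * Real.log x), s * MM y ≤ ε * (y ^ (1 / 2 : ℝ) * Real.log y))
    (ρ : ℂ) (hz : riemannZeta ρ = 0) (h0 : 0 < ρ.re) (h1 : ρ.re < 1) :
    ρ.re = 1 / 2 ∧ deriv riemannZeta ρ ≠ 0 := by
  have key : ∀ ρ : ℂ, riemannZeta ρ = 0 → 1 / 2 < ρ.re → ρ.re < 1 → False := by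
    intro ρ hz h0 h1
    obtain ⟨c, hc, hev⟩ := signs ρ hz h0.le h1
    set a : ℝ := ρ.re - 1 / 2 with ha
    have ha0 : 0 < a := by rw [ha]; linarith
    have hlo : ∀ᶠ y : ℝ in atTop, Real.log y < c * y ^ a := by
      have h2 := (isLittleO_log_rpow_atTop ha0).bound (show 0 < c / 2 by linarith)
      filter_upwards [h2, eventually_gt_atTop 1] with y hy hy1
      have hy0 : 0 < y := by linarith
      rw [Real.norm_of_nonneg (Real.log_nonneg hy1.le), Real.norm_of_nonneg (by positivity)] at hy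
      have : 0 < y ^ a := by positivity
      nlinarith
    obtain ⟨Y, hY⟩ := eventually_atTop.mp hlo
    obtain ⟨x, hx1, hx2, hx3⟩ := ((h 1 one_pos).and_eventually (hev.and (eventually_ge_atTop (max Y 2)))).exists
    obtain ⟨y, hy, hy2⟩ := hx2 s hs
    have h4 := hx1 y hy
    have hYy : Y ≤ y := (le_max_left _ _).trans (hx3.trans hy.1)
    have hy1 : 2 ≤ y := (le_max_right _ _).trans (hx3.trans hy.1)
    have hy0 : 0 < y := by linarith
    have h5 := hY y hYy
    have h6 : y ^ ρ.re = y ^ (1 / 2 : ℝ) * y ^ a := by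
      rw [← Real.rpow_add hy0]; congr 1; rw [ha]; ring
    have h7 : 0 < y ^ (1 / 2 : ℝ) := by positivity
    rw [h6] at hy2
    have h8 : y ^ (1 / 2 : ℝ) * Real.log y < y ^ (1 / 2 : ℝ) * (c * y ^ a) := mul_lt_mul_of_pos_left h5 h7
    nlinarith
  have hre : ρ.re = 1 / 2 := by
    rcases lt_trichotomy ρ.re (1 / 2) with h2 | h2 | h2
    · exfalso
      exact key (1 - ρ) (H313.TK.refl_zero ρ hz h0 h1) (by simp; linarith) (by simp; linarith)
    · exact h2
    · exact (key ρ hz h2 h1).elim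
  refine ⟨hre, fun hz' => ?_⟩
  obtain ⟨c, hc, hev⟩ := signs2 ρ hz hz' hre.ge h1
  obtain ⟨x, hx1, hx2, hx3⟩ :=
    ((h (c / 2) (by linarith)).and_eventually (hev.and (eventually_ge_atTop (2 : ℝ)))).exists
  obtain ⟨y, hy, hy2⟩ := hx2 s hs
  have h4 := hx1 y hy
  have hy1 : 2 ≤ y := hx3.trans hy.1
  have hy0 : 0 < y := by linarith
  rw [hre] at hy2
  have h7 : 0 < y ^ (1 / 2 : ℝ) := by positivity
  have h8 : 0 < Real.log y := Real.log_pos (by linarith)
  have h9 : 0 < y ^ (1 / 2 : ℝ) * Real.log y := by positivity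
  nlinarith

/-- change of the variable -/
theorem subst (l : ℝ) {x : ℝ} (hx : 1 ≤ x) :
    ∫ y in (1:ℝ)..x, (MM y : ℂ) * (y : ℂ) ^ (-(3 / 2 : ℂ) - l * I) = Ph (1 / 2 + l * I) (Real.log x) := by
  have hx0 : 0 < x := by linarith
  have himg : Real.exp '' Ioc 0 (Real.log x) = Ioc 1 x := by
    ext y
    constructor
    · rintro ⟨u, hu, rfl⟩
      exact ⟨by simpa using hu.1, by rw [← Real.le_log_iff_exp_le hx0]; exact hu.2⟩
    · intro hy
      have hy0 : 0 < y := by linarith [hy.1]
      exact ⟨Real.log y, ⟨Real.log_pos hy.1, Real.log_le_log hy0 hy.2⟩, Real.exp_log hy0⟩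
  unfold Ph
  rw [intervalIntegral.integral_of_le hx, intervalIntegral.integral_of_le (Real.log_nonneg hx), ← himg,
    integral_image_eq_integral_abs_deriv_smul measurableSet_Ioc
      (fun u _ => (Real.hasDerivAt_exp u).hasDerivWithinAt) Real.exp_injective.injOn]
  refine setIntegral_congr_fun measurableSet_Ioc fun u _ => ?_
  rw [abs_of_pos (Real.exp_pos u), real_smul]
  have h1 : ((Real.exp u : ℝ) : ℂ) ^ (-(3 / 2 : ℂ) - l * I) = cexp (u * (-(3 / 2 : ℂ) - l * I)) := by
    rw [Complex.cpow_def_of_ne_zero (by exact_mod_cast (Real.exp_pos u).ne'), ← Complex.ofReal_log (Real.exp_pos u).le,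
      Real.log_exp]
  rw [h1, Complex.ofReal_exp]
  have h2 : MM (Real.exp u) = mm u := rfl
  rw [h2]
  have h3 : cexp (-(1 / 2 + l * I) * u) = cexp u * cexp (u * (-(3 / 2 : ℂ) - l * I)) := by
    rw [← Complex.exp_add]
    congr 1
    ring
  rw [h3]
  ring

/-- the trigonometric polynomial -/
def tp (L : Finset ℝ) (a : ℝ → ℂ) (u : ℝ) : ℝ := (∑ l ∈ L, a l * cexp (-(l * I) * u)).re

theorem tp_cont (L : Finset ℝ) (a : ℝ → ℂ) : Continuous (tp L a) := by
  unfold tp
  fun_prop

/-- the mean of an exponential -/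
theorem exp_mean (l : ℝ) : ∃ D : ℝ, 0 ≤ D ∧ ∀ X Z : ℝ, X ≤ Z →
    ‖(∫ u in X..Z, cexp (-(l * I) * u)) - (if l = 0 then (1:ℂ) else 0) * ((Z - X : ℝ) : ℂ)‖ ≤ D := by
  by_cases hl : l = 0
  · refine ⟨0, le_rfl, fun X Z h => ?_⟩
    rw [if_pos hl, hl]
    simp
  · refine ⟨2 / |l|, by positivity, fun X Z h => ?_⟩
    rw [if_neg hl, zero_mul, sub_zero]
    have hc : (-(l * I) : ℂ) ≠ 0 := by
      simp [hl]
    rw [integral_exp_mul_complex hc, norm_div]
    have h1 : ‖(-(l * I) : ℂ)‖ = |l| := by simp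
    rw [h1]
    refine div_le_div_of_nonneg_right ?_ (abs_nonneg _)
    refine (norm_sub_le _ _).trans (le_of_eq ?_)
    rw [Complex.norm_exp, Complex.norm_exp]
    simp
    norm_num

/-- the sharp bound: one inequality for every non-negative trigonometric polynomial -/
theorem sharp {s : ℝ} (hs : s = 1 ∨ s = -1) (K : ℝ)
    (hsimp : ∀ l : ℝ, riemannZeta (1 / 2 + l * I) = 0 → deriv riemannZeta (1 / 2 + l * I) ≠ 0)
    (hw : ∀ T : ℝ, 0 < T → ∃ X : ℝ, 1 ≤ X ∧
      ∀ u ∈ Icc (X - Real.log X / 2) (X + T + Real.log (X + T) / 2), s * mm u ≤ K * Real.exp (u / 2))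
    (L : Finset ℝ) (a : ℝ → ℂ) (ha : ∀ u : ℝ, 0 ≤ tp L a u) :
    s * (∑ l ∈ L, a l * cf l).re ≤ K * (∑ l ∈ L, a l * (if l = 0 then (1:ℂ) else 0)).re := by
  choose C hC hmain using fun l : ℝ => log_form l (hsimp l)
  choose D hD hmean using exp_mean
  set K' : ℝ := max K 1 with hK'
  have hK1 : 1 ≤ K' := le_max_right _ _
  set E : ℝ := ∑ l ∈ L, ‖a l‖ * (2 * (C l * K')) with hE
  set G : ℝ := ∑ l ∈ L, ‖a l‖ * D l with hG
  set R : ℝ := K * (∑ l ∈ L, a l * (if l = 0 then (1:ℂ) else 0)).re - s * (∑ l ∈ L, a l * cf l).re with hR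
  have habs : |s| = 1 := by rcases hs with rfl | rfl <;> simp
  have key : ∀ T : ℝ, 0 < T → -(E + |K| * G) ≤ T * R := by
    intro T hT
    obtain ⟨X, hX, hX2⟩ := hw T hT
    have hlog0 : 0 ≤ Real.log X := Real.log_nonneg hX
    have hlog1 : Real.log X ≤ Real.log (X + T) := Real.log_le_log (by linarith) (by linarith)
    have hbd : ∀ u ∈ Icc (X - Real.log X / 2) (X + T + Real.log (X + T) / 2), s * mm u ≤ K' * Real.exp (u / 2) :=
      fun u hu => (hX2 u hu).trans (mul_le_mul_of_nonneg_right (le_max_left _ _) (Real.exp_pos _).le)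
    have hlX : Real.log X ≤ X := (Real.log_le_sub_one_of_pos (by linarith)).trans (by linarith)
    have b1 : ∀ l : ℝ, ‖Ph (1 / 2 + l * I) X - cf l * X‖ ≤ C l * K' := fun l =>
      hmain l X hX s hs K' hK1 fun u hu => hbd u ⟨hu.1, by linarith [hu.2]⟩
    have hlXT : Real.log (X + T) ≤ X + T := (Real.log_le_sub_one_of_pos (by linarith)).trans (by linarith)
    have hlog2 : Real.log (X + T) - Real.log X ≤ T := by
      rw [← Real.log_div (by linarith) (by linarith)]
      have h1 : (X + T) / X = 1 + T / X := by field_simp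
      have h2 : T / X ≤ T := div_le_self hT.le hX
      have h3 : 0 < T / X := by positivity
      rw [h1]
      have := Real.log_le_sub_one_of_pos (show 0 < 1 + T / X by positivity)
      linarith
    have b2 : ∀ l : ℝ, ‖Ph (1 / 2 + l * I) (X + T) - cf l * ((X + T : ℝ) : ℂ)‖ ≤ C l * K' := fun l =>
      hmain l (X + T) (by linarith) s hs K' hK1 fun u hu => hbd u ⟨by linarith [hu.1], hu.2⟩
    -- the twisted sums
    have hre : ∀ l : ℝ, (1 / 2 + l * I : ℂ).re = 1 / 2 := fun l => by simp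
    have hii : ∀ l : ℝ, IntervalIntegrable (fun u : ℝ => cexp (-(1 / 2 + l * I) * u) * (mm u : ℂ)) volume X (X + T) :=
      fun l => tw_ii _ (hre l) _ _
    set J : ℝ → ℂ := fun l => ∫ u in X..(X + T), cexp (-(1 / 2 + l * I) * u) * (mm u : ℂ) with hJ
    have hJ1 : ∀ l : ℝ, J l = Ph (1 / 2 + l * I) (X + T) - Ph (1 / 2 + l * I) X := by
      intro l
      simp only [hJ]
      unfold Ph
      rw [intervalIntegral.integral_interval_sub_left (tw_ii _ (hre l) _ _) (tw_ii _ (hre l) _ _)]
    have hJ2 : ∀ l : ℝ, ‖J l - cf l * T‖ ≤ 2 * (C l * K') := by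
      intro l
      rw [hJ1]
      have h1 : Ph (1 / 2 + l * I) (X + T) - Ph (1 / 2 + l * I) X - cf l * T =
          (Ph (1 / 2 + l * I) (X + T) - cf l * ((X + T : ℝ) : ℂ)) - (Ph (1 / 2 + l * I) X - cf l * X) := by
        push_cast
        ring
      rw [h1]
      refine (norm_sub_le _ _).trans ?_
      linarith [b1 l, b2 l]
    -- the integral of `M` against the polynomial
    have hm1 : ∫ u in X..(X + T), (Real.exp (-(u / 2)) * mm u) * tp L a u = (∑ l ∈ L, a l * J l).re := by
      have h1 : ∑ l ∈ L, a l * J l = ∫ u in X..(X + T), ∑ l ∈ L, a l * (cexp (-(1 / 2 + l * I) * u) * (mm u : ℂ)) := by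
        rw [intervalIntegral.integral_finsetSum fun l _ => (hii l).const_mul _]
        refine Finset.sum_congr rfl fun l _ => ?_
        rw [intervalIntegral.integral_const_mul]
      have h2 : IntervalIntegrable (fun u : ℝ => ∑ l ∈ L, a l * (cexp (-(1 / 2 + l * I) * u) * (mm u : ℂ))) volume X (X + T) := by
        have := IntervalIntegrable.sum L (f := fun l => fun u : ℝ => a l * (cexp (-(1 / 2 + l * I) * u) * (mm u : ℂ)))
          (μ := volume) (a := X) (b := X + T) fun l _ => (hii l).const_mul _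
        refine this.congr (fun u _ => ?_)
        simp [Finset.sum_apply]
      rw [h1]
      have h3 := Complex.reCLM.intervalIntegral_comp_comm h2
      rw [Complex.reCLM_apply] at h3
      rw [← h3]
      refine intervalIntegral.integral_congr fun u _ => ?_
      simp only [Complex.reCLM_apply]
      unfold tp
      have h4 : ∑ l ∈ L, a l * (cexp (-(1 / 2 + l * I) * u) * (mm u : ℂ)) =
          ((Real.exp (-(u / 2)) * mm u : ℝ) : ℂ) * ∑ l ∈ L, a l * cexp (-(l * I) * u) := by
        rw [Finset.mul_sum]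
        refine Finset.sum_congr rfl fun l _ => ?_
        have h5 : cexp (-(1 / 2 + l * I) * u) = cexp (-(u / 2)) * cexp (-(l * I) * u) := by
          rw [← Complex.exp_add]
          congr 1
          ring
        rw [h5]
        push_cast
        ring
      rw [h4, Complex.re_ofReal_mul]
    have hm2 : |(∑ l ∈ L, a l * J l).re - T * (∑ l ∈ L, a l * cf l).re| ≤ E := by
      have h1 : (∑ l ∈ L, a l * J l).re - T * (∑ l ∈ L, a l * cf l).re = (∑ l ∈ L, a l * (J l - cf l * T)).re := by
        have h2 : ∑ l ∈ L, a l * (J l - cf l * T) = ∑ l ∈ L, a l * J l - (T : ℂ) * ∑ l ∈ L, a l * cf l := by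
          rw [Finset.mul_sum, ← Finset.sum_sub_distrib]
          refine Finset.sum_congr rfl fun l _ => ?_
          ring
        rw [h2, Complex.sub_re, Complex.re_ofReal_mul]
      rw [h1]
      refine (Complex.abs_re_le_norm _).trans ((norm_sum_le _ _).trans ?_)
      rw [hE]
      refine Finset.sum_le_sum fun l _ => ?_
      rw [norm_mul]
      exact mul_le_mul_of_nonneg_left (hJ2 l) (norm_nonneg _)
    -- the integral of the polynomial
    have hp1 : ∫ u in X..(X + T), tp L a u = (∑ l ∈ L, a l * ∫ u in X..(X + T), cexp (-(l * I) * u)).re := by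
      have hci : ∀ l : ℝ, IntervalIntegrable (fun u : ℝ => a l * cexp (-(l * I) * u)) volume X (X + T) := fun l =>
        (by fun_prop : Continuous fun u : ℝ => a l * cexp (-(l * I) * u)).intervalIntegrable _ _
      have h1 : ∑ l ∈ L, a l * ∫ u in X..(X + T), cexp (-(l * I) * u) =
          ∫ u in X..(X + T), ∑ l ∈ L, a l * cexp (-(l * I) * u) := by
        rw [intervalIntegral.integral_finsetSum fun l _ => hci l]
        refine Finset.sum_congr rfl fun l _ => ?_
        rw [intervalIntegral.integral_const_mul]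
      rw [h1]
      have hI : IntervalIntegrable (fun u : ℝ => ∑ l ∈ L, a l * cexp (-(l * I) * u)) volume X (X + T) :=
        (by fun_prop : Continuous fun u : ℝ => ∑ l ∈ L, a l * cexp (-(l * I) * u)).intervalIntegrable _ _
      have h3 := Complex.reCLM.intervalIntegral_comp_comm hI
      rw [Complex.reCLM_apply] at h3
      rw [← h3]
      rfl
    have hp2 : |(∫ u in X..(X + T), tp L a u) - T * (∑ l ∈ L, a l * (if l = 0 then (1:ℂ) else 0)).re| ≤ G := by
      rw [hp1]
      have h1 : (∑ l ∈ L, a l * ∫ u in X..(X + T), cexp (-(l * I) * u)).re -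
          T * (∑ l ∈ L, a l * (if l = 0 then (1:ℂ) else 0)).re =
          (∑ l ∈ L, a l * ((∫ u in X..(X + T), cexp (-(l * I) * u)) - (if l = 0 then (1:ℂ) else 0) * ((X + T - X : ℝ) : ℂ))).re := by
        have h2 : ∑ l ∈ L, a l * ((∫ u in X..(X + T), cexp (-(l * I) * u)) - (if l = 0 then (1:ℂ) else 0) * ((X + T - X : ℝ) : ℂ)) =
            ∑ l ∈ L, a l * (∫ u in X..(X + T), cexp (-(l * I) * u)) - (T : ℂ) * ∑ l ∈ L, a l * (if l = 0 then (1:ℂ) else 0) := by
          rw [Finset.mul_sum, ← Finset.sum_sub_distrib]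
          refine Finset.sum_congr rfl fun l _ => ?_
          rw [add_sub_cancel_left]
          ring
        rw [h2, Complex.sub_re, Complex.re_ofReal_mul]
      rw [h1]
      refine (Complex.abs_re_le_norm _).trans ((norm_sum_le _ _).trans ?_)
      rw [hG]
      refine Finset.sum_le_sum fun l _ => ?_
      rw [norm_mul]
      exact mul_le_mul_of_nonneg_left (hmean l X (X + T) (by linarith)) (norm_nonneg _)
    -- positivity
    have hpos : s * ∫ u in X..(X + T), (Real.exp (-(u / 2)) * mm u) * tp L a u ≤ K * ∫ u in X..(X + T), tp L a u := by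
      rw [← intervalIntegral.integral_const_mul, ← intervalIntegral.integral_const_mul]
      have hm := mm_meas
      have htp := tp_cont L a
      refine intervalIntegral.integral_mono_on (by linarith) ?_ ((htp.const_mul K).intervalIntegrable _ _) fun u hu => ?_
      · refine IntervalIntegrable.const_mul ?_ _
        refine ((by fun_prop : Continuous fun u : ℝ => Real.exp (-(u / 2)) * Real.exp u * |tp L a u|).intervalIntegrable X (X + T)).mono_fun
          (by fun_prop : Measurable fun u : ℝ => (Real.exp (-(u / 2)) * mm u) * tp L a u).aestronglyMeasurable (ae_of_all _ fun u => ?_)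
        beta_reduce
        rw [norm_mul, norm_mul, norm_mul, norm_mul, Real.norm_eq_abs, Real.norm_eq_abs, Real.norm_eq_abs, Real.norm_eq_abs,
          Real.norm_eq_abs, abs_of_pos (Real.exp_pos _), abs_of_pos (Real.exp_pos u), abs_abs]
        exact mul_le_mul_of_nonneg_right (mul_le_mul_of_nonneg_left (abs_mm_le u) (Real.exp_pos _).le) (abs_nonneg _)
      · have h1 := hX2 u ⟨by linarith [hu.1], by linarith [hu.2]⟩
        have h2 := mul_le_mul_of_nonneg_left h1 (Real.exp_pos (-(u / 2))).le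
        have h3 : Real.exp (-(u / 2)) * (K * Real.exp (u / 2)) = K := by
          rw [mul_left_comm, ← Real.exp_add, neg_add_cancel, Real.exp_zero, mul_one]
        rw [h3] at h2
        have h4 := mul_le_mul_of_nonneg_right h2 (ha u)
        calc s * (Real.exp (-(u / 2)) * mm u * tp L a u) = Real.exp (-(u / 2)) * (s * mm u) * tp L a u := by ring
          _ ≤ _ := h4
    rw [hm1] at hpos
    have q1 : s * (∑ l ∈ L, a l * J l).re - s * (T * (∑ l ∈ L, a l * cf l).re) ≥ -E := by
      rw [← mul_sub]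
      have h1 : |s * ((∑ l ∈ L, a l * J l).re - T * (∑ l ∈ L, a l * cf l).re)| ≤ E := by
        rw [abs_mul, habs, one_mul]
        exact hm2
      exact (abs_le.1 h1).1
    have q2 : K * (∫ u in X..(X + T), tp L a u) - K * (T * (∑ l ∈ L, a l * (if l = 0 then (1:ℂ) else 0)).re) ≤ |K| * G := by
      rw [← mul_sub]
      refine (le_abs_self _).trans ?_
      rw [abs_mul]
      exact mul_le_mul_of_nonneg_left hp2 (abs_nonneg _)
    rw [hR]
    nlinarith
  by_contra hcon
  push Not at hcon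
  have hR0 : R < 0 := by rw [hR]; linarith
  have hB : 0 ≤ E + |K| * G := by
    have h1 : 0 ≤ E := Finset.sum_nonneg fun l _ => by
      have := hC l
      positivity
    have h2 : 0 ≤ G := Finset.sum_nonneg fun l _ => mul_nonneg (norm_nonneg _) (hD l)
    positivity
  have h := key ((E + |K| * G + 1) / (-R)) (div_pos (by linarith) (by linarith))
  have h2 : (E + |K| * G + 1) / (-R) * R = -(E + |K| * G + 1) := by
    rw [div_mul_eq_mul_div, div_eq_iff (neg_ne_zero.2 hR0.ne)]
    ring
  linarith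

/-- every coefficient is bounded by the one-sided bound -/
theorem sharp_one {s : ℝ} (hs : s = 1 ∨ s = -1) (K : ℝ)
    (hsimp : ∀ l : ℝ, riemannZeta (1 / 2 + l * I) = 0 → deriv riemannZeta (1 / 2 + l * I) ≠ 0)
    (hw : ∀ T : ℝ, 0 < T → ∃ X : ℝ, 1 ≤ X ∧
      ∀ u ∈ Icc (X - Real.log X / 2) (X + T + Real.log (X + T) / 2), s * mm u ≤ K * Real.exp (u / 2))
    (l : ℝ) : ‖cf l‖ ≤ K := by
  by_cases hl : l = 0
  · have h := sharp hs K hsimp hw {0} (fun _ => 1) (fun u => by simp [tp])
    simp [cf_zero] at h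
    rw [hl, cf_zero]
    simpa using h
  have hs2 : s * s = 1 := by rcases hs with rfl | rfl <;> norm_num
  have habs : |s| = 1 := by rcases hs with rfl | rfl <;> simp
  by_cases hc : cf l = 0
  · have h := sharp hs K hsimp hw {0} (fun _ => 1) (fun u => by simp [tp])
    simp [cf_zero] at h
    rw [hc]
    simpa using h
  have hn : 0 < ‖cf l‖ := norm_pos_iff.2 hc
  set w : ℂ := (s : ℂ) * (starRingEnd ℂ) (cf l) / ‖cf l‖ with hw'
  have hw1 : ‖w‖ = 1 := by
    rw [hw', norm_div, norm_mul, Complex.norm_conj, Complex.norm_real, Real.norm_eq_abs, habs, one_mul, Complex.norm_real,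
      Real.norm_eq_abs, abs_of_pos hn, div_self hn.ne']
  have h := sharp hs K hsimp hw {0, l} (fun r => if r = 0 then 1 else w) (fun u => by
    unfold tp
    rw [Finset.sum_pair (Ne.symm hl)]
    simp only [if_true, if_neg hl, Complex.ofReal_zero, zero_mul, neg_zero, Complex.exp_zero, mul_one]
    rw [Complex.add_re, Complex.one_re]
    have h1 : |(w * cexp (-(l * I) * u)).re| ≤ 1 := by
      refine (Complex.abs_re_le_norm _).trans ?_
      rw [norm_mul, hw1, one_mul, Complex.norm_exp]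
      simp
    have := (abs_le.1 h1).1
    linarith)
  rw [Finset.sum_pair (Ne.symm hl), Finset.sum_pair (Ne.symm hl)] at h
  simp only [if_true, if_neg hl, cf_zero, mul_zero, zero_add, mul_one, add_zero, Complex.one_re] at h
  have h2 : w * cf l = ((s * ‖cf l‖ : ℝ) : ℂ) := by
    rw [hw', div_mul_eq_mul_div, mul_assoc, ← Complex.normSq_eq_conj_mul_self, Complex.normSq_eq_norm_sq]
    push_cast
    have : (‖cf l‖ : ℂ) ≠ 0 := by exact_mod_cast hn.ne'
    field_simp
  rw [h2, Complex.ofReal_re, ← mul_assoc, hs2, one_mul] at h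
  exact h

end

end Pool.Agent.Q212.WS
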