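import Pool.Agent.Q212.WS.C

/-!
# The statements in the original variable
-/

open Complex MeasureTheory Filter Topology Set Metric

set_option linter.unusedSectionVars false
set_option linter.unusedVariables false
set_option autoImplicit false

namespace Pool.Agent.Q212.WS

open H313.TK

noncomputable section

theorem win_log {s K x : ℝ} (hx : Real.exp 1 ≤ x)
    (h : ∀ y ∈ Icc (x / Real.sqrt (Real.log x)) (x * Real.sqrt (Real.log x)), s * MM y ≤ K * Real.sqrt y) :
    ∀ u ∈ Icc (Real.log x - Real.log (Real.log x) / 2) (Real.log x + Real.log (Real.log x) / 2),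
      s * mm u ≤ K * Real.exp (u / 2) := by
  intro u hu
  have hx0 : 0 < x := (Real.exp_pos 1).trans_le hx
  have hL : 1 ≤ Real.log x := by rwa [Real.le_log_iff_exp_le hx0]
  have hL0 : 0 < Real.log x := by linarith
  have e1 : Real.sqrt (Real.log x) = Real.exp (Real.log (Real.log x) / 2) := by
    rw [Real.exp_half, Real.exp_log hL0]
  have e2 : x = Real.exp (Real.log x) := (Real.exp_log hx0).symm
  have h1 := h (Real.exp u) ⟨?_, ?_⟩
  · rw [← Real.exp_half] at h1
    exact h1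
  · rw [e1]
    nth_rewrite 1 [e2]
    rw [← Real.exp_sub]
    exact Real.exp_le_exp.2 hu.1
  · rw [e1]
    nth_rewrite 1 [e2]
    rw [← Real.exp_add]
    exact Real.exp_le_exp.2 hu.2

/-- the Fourier integral under a one-sided bound near the end point -/
theorem fourier (l : ℝ) (hl : riemannZeta (1 / 2 + l * I) = 0 → deriv riemannZeta (1 / 2 + l * I) ≠ 0) :
    ∃ C : ℝ, 0 < C ∧ ∀ x : ℝ, Real.exp 1 ≤ x → ∀ s : ℝ, s = 1 ∨ s = -1 → ∀ K : ℝ, 1 ≤ K →
    (∀ y ∈ Icc (x / Real.sqrt (Real.log x)) (x * Real.sqrt (Real.log x)), s * MM y ≤ K * Real.sqrt y) →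
    ‖(∫ y in (1:ℝ)..x, (MM y : ℂ) * (y : ℂ) ^ (-(3 / 2 : ℂ) - l * I)) - cf l * (Real.log x : ℂ)‖ ≤ C * K := by
  obtain ⟨C, hC, h⟩ := log_form l hl
  refine ⟨C, hC, fun x hx s hs K hK hw => ?_⟩
  have hx0 : 0 < x := (Real.exp_pos 1).trans_le hx
  have hL : 1 ≤ Real.log x := by rwa [Real.le_log_iff_exp_le hx0]
  rw [subst l (by linarith [Real.add_one_le_exp (1:ℝ)])]
  exact h (Real.log x) hL s hs K hK (win_log hx hw)

/-- the mean of `|M|` over `[x, e x]` under a one-sided bound -/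
theorem two_sided :
    ∃ C : ℝ, 0 < C ∧ ∀ x : ℝ, Real.exp 1 ≤ x → ∀ s : ℝ, s = 1 ∨ s = -1 → ∀ K : ℝ, 1 ≤ K →
    (∀ y ∈ Icc (x / Real.sqrt (Real.log x)) (x * Real.sqrt (Real.log x)), s * MM y ≤ K * Real.sqrt y) →
    ∫ y in x..(Real.exp 1 * x), |MM y| * y ^ (-(3 / 2 : ℝ)) ≤ C * K := by
  obtain ⟨C, hC, h⟩ := loc
  have hW := W_pos (-1)
  refine ⟨2 / W (-1) * C, by positivity, fun x hx s hs K hK hw => ?_⟩
  have hx0 : 0 < x := (Real.exp_pos 1).trans_le hx
  have hL : 1 ≤ Real.log x := by rwa [Real.le_log_iff_exp_le hx0]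
  have h1 := h (Real.log x) hL s hs K hK (win_log hx hw)
  set Z := Real.log x with hZ
  have hm := mm_meas
  -- change of the variable
  have himg : Real.exp '' Ioc Z (Z + 1) = Ioc x (Real.exp 1 * x) := by
    ext y
    constructor
    · rintro ⟨u, hu, rfl⟩
      refine ⟨?_, ?_⟩
      · rw [← Real.log_lt_iff_lt_exp hx0]; exact hu.1
      · have : Real.exp 1 * x = Real.exp (Z + 1) := by
          rw [Real.exp_add, hZ, Real.exp_log hx0, mul_comm]
        rw [this]
        exact Real.exp_le_exp.2 hu.2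
    · intro hy
      have hy0 : 0 < y := by linarith [hy.1]
      refine ⟨Real.log y, ⟨Real.log_lt_log hx0 hy.1, ?_⟩, Real.exp_log hy0⟩
      have := Real.log_le_log hy0 hy.2
      rw [Real.log_mul (Real.exp_pos 1).ne' hx0.ne', Real.log_exp] at this
      rw [hZ]
      linarith
  have hxe : x ≤ Real.exp 1 * x := le_mul_of_one_le_left hx0.le (Real.one_le_exp zero_le_one)
  have e1 : ∫ y in x..(Real.exp 1 * x), |MM y| * y ^ (-(3 / 2 : ℝ)) =
      ∫ u in Ioc Z (Z + 1), |mm u| * Real.exp (-(u / 2)) := by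
    rw [intervalIntegral.integral_of_le hxe, ← himg,
      integral_image_eq_integral_abs_deriv_smul measurableSet_Ioc
        (fun u _ => (Real.hasDerivAt_exp u).hasDerivWithinAt) Real.exp_injective.injOn]
    refine setIntegral_congr_fun measurableSet_Ioc fun u _ => ?_
    rw [abs_of_pos (Real.exp_pos u), smul_eq_mul, ← Real.exp_mul]
    have h3 : Real.exp (-(u / 2)) = Real.exp u * Real.exp (u * (-(3 / 2))) := by
      rw [← Real.exp_add]
      congr 1
      ring
    rw [h3]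
    show Real.exp u * (|mm u| * Real.exp (u * -(3 / 2))) = _
    ring
  rw [e1]
  -- comparison with the local mass
  have e2 : ∫ u in Ioc Z (Z + 1), |mm u| * Real.exp (-(u / 2)) =
      ∫ v in Ico (-1:ℝ) 0, |mm (Z - v)| * Real.exp (-((Z - v) / 2)) := by
    have h2 := intervalIntegral.integral_comp_sub_left (a := (-1:ℝ)) (b := 0)
      (fun u : ℝ => |mm u| * Real.exp (-(u / 2))) Z
    rw [sub_zero, sub_neg_eq_add, intervalIntegral.integral_of_le (by norm_num),
      intervalIntegral.integral_of_le (by linarith), ← integral_Ico_eq_integral_Ioc] at h2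
    exact h2.symm
  rw [e2]
  have i0 := abs_int Z
  have i1 : IntegrableOn (fun v : ℝ => |mm (Z - v)| * Real.exp (-((Z - v) / 2))) (Ico (-1:ℝ) 0) := by
    have h3 : IntegrableOn (fun v : ℝ => Real.exp (Z - v) * Real.exp (-((Z - v) / 2))) (Ico (-1:ℝ) 0) :=
      ((by fun_prop : Continuous fun v : ℝ => Real.exp (Z - v) * Real.exp (-((Z - v) / 2))).integrableOn_Icc (a := -1) (b := 0)).mono_set
        Ico_subset_Icc_self
    refine h3.mono' (by fun_prop : Measurable fun v : ℝ => |mm (Z - v)| * Real.exp (-((Z - v) / 2))).aestronglyMeasurable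
      (ae_of_all _ fun v => ?_)
    rw [Real.norm_of_nonneg (by positivity)]
    exact mul_le_mul_of_nonneg_right (abs_mm_le _) (Real.exp_pos _).le
  have e3 : ∫ v in Ico (-1:ℝ) 0, |mm (Z - v)| * Real.exp (-((Z - v) / 2)) ≤
      ∫ v in Ico (-1:ℝ) 0, 2 / W (-1) * Real.exp (-(Z / 2)) * (|mm (Z - v)| * kp v) := by
    refine setIntegral_mono_on i1 (i0.integrableOn.const_mul _) measurableSet_Ico fun v hv => ?_
    have h4 : W (-1) ≤ W v := by
      unfold W
      refine Real.exp_le_exp.2 ?_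
      rw [max_eq_right (by norm_num : (-1:ℝ) ≤ 0), max_eq_right hv.2.le, abs_neg, abs_one, abs_of_nonpos hv.2.le]
      have h5 : Real.exp (2 * -v) ≤ Real.exp (2 * 1) := Real.exp_le_exp.2 (by linarith [hv.1])
      have h6 := mul_le_mul_of_nonneg_left h5 (by positivity : 0 ≤ Real.pi / 4)
      linarith
    have h5 := (kp_bounds v).1
    have h6 : 1 ≤ 2 / W (-1) * kp v := by
      rw [div_mul_eq_mul_div, le_div_iff₀ hW]
      linarith
    have h7 : Real.exp (-((Z - v) / 2)) ≤ Real.exp (-(Z / 2)) := Real.exp_le_exp.2 (by linarith [hv.2])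
    have h8 : 0 ≤ |mm (Z - v)| * Real.exp (-(Z / 2)) := by positivity
    calc |mm (Z - v)| * Real.exp (-((Z - v) / 2)) ≤ |mm (Z - v)| * Real.exp (-(Z / 2)) :=
          mul_le_mul_of_nonneg_left h7 (abs_nonneg _)
      _ ≤ (|mm (Z - v)| * Real.exp (-(Z / 2))) * (2 / W (-1) * kp v) := le_mul_of_one_le_right h8 h6
      _ = _ := by ring
  have e4 : ∫ v in Ico (-1:ℝ) 0, 2 / W (-1) * Real.exp (-(Z / 2)) * (|mm (Z - v)| * kp v) ≤
      ∫ v, 2 / W (-1) * Real.exp (-(Z / 2)) * (|mm (Z - v)| * kp v) := by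
    refine setIntegral_le_integral (i0.const_mul _) (ae_of_all _ fun v => ?_)
    have := kp_nonneg v
    show 0 ≤ 2 / W (-1) * Real.exp (-(Z / 2)) * (|mm (Z - v)| * kp v)
    positivity
  refine (e3.trans e4).trans ?_
  rw [integral_const_mul]
  have h9 := mul_le_mul_of_nonneg_left h1 (by positivity : 0 ≤ 2 / W (-1))
  calc 2 / W (-1) * Real.exp (-(Z / 2)) * ∫ v, |mm (Z - v)| * kp v = 2 / W (-1) * (Real.exp (-(Z / 2)) * Am Z) := by
        rw [mul_assoc]; rfl
    _ ≤ 2 / W (-1) * (C * K) := h9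
    _ = _ := by ring

/-- Gonek's normalisation -/
def FF (y : ℝ) : ℝ := Real.sqrt y * Real.log (Real.log (Real.log y)) ^ (5 / 4 : ℝ)

theorem FF_small (K ε : ℝ) (hε : 0 < ε) : ∀ᶠ y : ℝ in atTop, K * FF y ≤ ε * (y ^ (1 / 2 : ℝ) * Real.log y) := by
  have h1 : Tendsto (fun y : ℝ => Real.log (Real.log y)) atTop atTop :=
    Real.tendsto_log_atTop.comp Real.tendsto_log_atTop
  have h2 := (isLittleO_log_rpow_rpow_atTop (s := 1) (5 / 4) one_pos).bound
    (show 0 < ε / (|K| + 1) by positivity)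
  have h3 := h1.eventually h2
  have h4 := h1.eventually (eventually_ge_atTop (Real.exp 1))
  filter_upwards [h3, h4, eventually_ge_atTop 2] with y hy hy2 hy3
  have hy0 : 0 < y := by linarith
  have hL0 : 0 < Real.log y := Real.log_pos (by linarith)
  have hLL : 0 < Real.log (Real.log y) := (Real.exp_pos 1).trans_le hy2
  have hLLL : 0 ≤ Real.log (Real.log (Real.log y)) := by
    apply Real.log_nonneg
    exact (Real.one_le_exp zero_le_one).trans hy2
  rw [Real.norm_of_nonneg (by positivity), Real.norm_of_nonneg (by positivity), Real.rpow_one] at hy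
  have h5 : Real.log (Real.log y) ≤ Real.log y := (Real.log_le_sub_one_of_pos hL0).trans (by linarith)
  have h6 : 0 < y ^ (1 / 2 : ℝ) := by positivity
  have h7 : 0 ≤ Real.log (Real.log (Real.log y)) ^ (5 / 4 : ℝ) := by positivity
  have h8 : (|K| + 1) * Real.log (Real.log (Real.log y)) ^ (5 / 4 : ℝ) ≤ ε * Real.log y := by
    have hp : 0 < |K| + 1 := by positivity
    calc (|K| + 1) * Real.log (Real.log (Real.log y)) ^ (5 / 4 : ℝ)
        ≤ (|K| + 1) * (ε / (|K| + 1) * Real.log (Real.log y)) := by gcongr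
      _ = ε * Real.log (Real.log y) := by field_simp
      _ ≤ ε * Real.log y := by gcongr
  have h9 : K * Real.log (Real.log (Real.log y)) ^ (5 / 4 : ℝ) ≤ ε * Real.log y := by
    refine le_trans ?_ h8
    exact mul_le_mul_of_nonneg_right ((le_abs_self K).trans (by linarith)) h7
  unfold FF
  rw [Real.sqrt_eq_rpow]
  calc K * (y ^ (1 / 2 : ℝ) * Real.log (Real.log (Real.log y)) ^ (5 / 4 : ℝ))
      = y ^ (1 / 2 : ℝ) * (K * Real.log (Real.log (Real.log y)) ^ (5 / 4 : ℝ)) := by ring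
    _ ≤ y ^ (1 / 2 : ℝ) * (ε * Real.log y) := by gcongr
    _ = _ := by ring

/-- a one-sided bound by a multiple of `F` near `x`, for all large `x` -/
theorem FF_window (B : ℝ) {s : ℝ} (h : ∀ᶠ y : ℝ in atTop, s * MM y ≤ B * FF y) :
    ∀ᶠ x : ℝ in atTop, Real.exp 1 ≤ x ∧ 1 ≤ Real.log (Real.log (Real.log x)) ^ (5 / 4 : ℝ) ∧
      ∀ y ∈ Icc (x / Real.sqrt (Real.log x)) (x * Real.sqrt (Real.log x)),
      s * MM y ≤ ((|B| + 1) * 4 * Real.log (Real.log (Real.log x)) ^ (5 / 4 : ℝ)) * Real.sqrt y := by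
  obtain ⟨Y, hY⟩ := eventually_atTop.mp h
  have t2 : Tendsto (fun y : ℝ => Real.log (Real.log y)) atTop atTop :=
    Real.tendsto_log_atTop.comp Real.tendsto_log_atTop
  have t3 : Tendsto (fun x : ℝ => Real.log (Real.log (Real.log x))) atTop atTop := Real.tendsto_log_atTop.comp t2
  filter_upwards [eventually_ge_atTop (Real.exp 1), t3.eventually_ge_atTop 1, t2.eventually_ge_atTop 2,
    eventually_ge_atTop (max (Y ^ 2) 1)] with x hx h3 h2 hxY
  have hx0 : 0 < x := (Real.exp_pos 1).trans_le hx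
  have hL : 1 ≤ Real.log x := by rwa [Real.le_log_iff_exp_le hx0]
  have hL0 : 0 < Real.log x := by linarith
  have hx1 : 1 ≤ x := (le_max_right _ _).trans hxY
  refine ⟨hx, Real.one_le_rpow h3 (by norm_num), fun y hy => ?_⟩
  have hs0 : 0 < Real.sqrt (Real.log x) := Real.sqrt_pos.2 hL0
  have hlx : Real.log x ≤ x := (Real.log_le_sub_one_of_pos hx0).trans (by linarith)
  have hsx : Real.sqrt (Real.log x) ≤ Real.sqrt x := Real.sqrt_le_sqrt hlx
  have hsx0 : 0 < Real.sqrt x := Real.sqrt_pos.2 hx0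
  -- `√x ≤ y ≤ x²`
  have hy1 : Real.sqrt x ≤ y := by
    refine le_trans ?_ hy.1
    rw [le_div_iff₀ hs0]
    calc Real.sqrt x * Real.sqrt (Real.log x) ≤ Real.sqrt x * Real.sqrt x := mul_le_mul_of_nonneg_left hsx hsx0.le
      _ = x := Real.mul_self_sqrt hx0.le
  have hy0 : 0 < y := hsx0.trans_le hy1
  have hyY : Y ≤ y := by
    refine le_trans ?_ hy1
    refine Real.le_sqrt_of_sq_le ?_
    exact (le_max_left _ _).trans hxY
  have hy2 : y ≤ x ^ 2 := by
    refine hy.2.trans ?_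
    rw [sq]
    refine mul_le_mul_of_nonneg_left ?_ hx0.le
    rw [Real.sqrt_le_left hx0.le]
    nlinarith
  have g1 : Real.log y ≤ 2 * Real.log x := by
    have := Real.log_le_log hy0 hy2
    rwa [Real.log_pow, Nat.cast_ofNat] at this
  have g1' : Real.log x / 2 ≤ Real.log y := by
    have := Real.log_le_log hsx0 hy1
    rwa [Real.log_sqrt hx0.le] at this
  have hly : 0 < Real.log y := by linarith
  have hlog2 : Real.log 2 ≤ 1 := by have := Real.log_two_lt_d9; linarith
  have hlog20 : 0 < Real.log 2 := Real.log_pos (by norm_num)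
  have g2 : Real.log (Real.log y) ≤ 2 * Real.log (Real.log x) := by
    have := Real.log_le_log hly g1
    rw [Real.log_mul (by norm_num) hL0.ne'] at this
    linarith
  have g2' : 1 ≤ Real.log (Real.log y) := by
    have := Real.log_le_log (by positivity) g1'
    rw [Real.log_div hL0.ne' (by norm_num)] at this
    linarith
  have g3 : Real.log (Real.log (Real.log y)) ≤ 2 * Real.log (Real.log (Real.log x)) := by
    have := Real.log_le_log (by linarith) g2
    rw [Real.log_mul (by norm_num) (by linarith)] at this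
    linarith
  have g3' : 0 ≤ Real.log (Real.log (Real.log y)) := Real.log_nonneg g2'
  have g4 : Real.log (Real.log (Real.log y)) ^ (5 / 4 : ℝ) ≤ 4 * Real.log (Real.log (Real.log x)) ^ (5 / 4 : ℝ) := by
    calc Real.log (Real.log (Real.log y)) ^ (5 / 4 : ℝ) ≤ (2 * Real.log (Real.log (Real.log x))) ^ (5 / 4 : ℝ) :=
          Real.rpow_le_rpow g3' g3 (by norm_num)
      _ = 2 ^ (5 / 4 : ℝ) * Real.log (Real.log (Real.log x)) ^ (5 / 4 : ℝ) := Real.mul_rpow (by norm_num) (by linarith)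
      _ ≤ 4 * Real.log (Real.log (Real.log x)) ^ (5 / 4 : ℝ) := by
          refine mul_le_mul_of_nonneg_right ?_ (Real.rpow_nonneg (by linarith) _)
          calc (2:ℝ) ^ (5 / 4 : ℝ) ≤ 2 ^ (2 : ℝ) := Real.rpow_le_rpow_of_exponent_le (by norm_num) (by norm_num)
            _ = 4 := by norm_num
  have g5 : 0 ≤ Real.log (Real.log (Real.log y)) ^ (5 / 4 : ℝ) := Real.rpow_nonneg g3' _
  calc s * MM y ≤ B * FF y := hY y hyY
    _ = Real.sqrt y * (B * Real.log (Real.log (Real.log y)) ^ (5 / 4 : ℝ)) := by unfold FF; ring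
    _ ≤ Real.sqrt y * ((|B| + 1) * (4 * Real.log (Real.log (Real.log x)) ^ (5 / 4 : ℝ))) := by
        refine mul_le_mul_of_nonneg_left ?_ (Real.sqrt_nonneg _)
        refine (mul_le_mul_of_nonneg_right ((le_abs_self B).trans (by linarith : |B| ≤ |B| + 1)) g5).trans ?_
        exact mul_le_mul_of_nonneg_left g4 (by positivity)
    _ = _ := by ring

/-- zeros under an eventual one-sided bound by a multiple of `F` -/
theorem FF_cost (B : ℝ) {s : ℝ} (hs : s = 1 ∨ s = -1) (h : ∀ᶠ y : ℝ in atTop, s * MM y ≤ B * FF y)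
    (ρ : ℂ) (hz : riemannZeta ρ = 0) (h0 : 0 < ρ.re) (h1 : ρ.re < 1) : ρ.re = 1 / 2 ∧ deriv riemannZeta ρ ≠ 0 := by
  refine cost hs (fun ε hε => ?_) ρ hz h0 h1
  obtain ⟨Y, hY⟩ := eventually_atTop.mp (h.and (FF_small B ε hε))
  refine (eventually_ge_atTop Y).frequently.mono fun x hx y hy => ?_
  have h2 := hY y (hx.trans hy.1)
  exact h2.1.trans h2.2

/-- **Gonek's normalisation**: the Fourier integrals -/
theorem gonek_fourier (B : ℝ) {s : ℝ} (hs : s = 1 ∨ s = -1) (h : ∀ᶠ y : ℝ in atTop, s * MM y ≤ B * FF y) (l : ℝ) :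
    ∃ C : ℝ, ∀ᶠ x : ℝ in atTop,
    ‖(∫ y in (1:ℝ)..x, (MM y : ℂ) * (y : ℂ) ^ (-(3 / 2 : ℂ) - l * I)) - cf l * (Real.log x : ℂ)‖ ≤
      C * Real.log (Real.log (Real.log x)) ^ (5 / 4 : ℝ) := by
  have hre : (1 / 2 + l * I : ℂ).re = 1 / 2 := by simp
  obtain ⟨C, hC, h1⟩ := fourier l (fun hz => (FF_cost B hs h _ hz (by rw [hre]; norm_num) (by rw [hre]; norm_num)).2)
  refine ⟨C * ((|B| + 1) * 4), ?_⟩
  filter_upwards [FF_window B h] with x hx
  have h2 := h1 x hx.1 s hs ((|B| + 1) * 4 * Real.log (Real.log (Real.log x)) ^ (5 / 4 : ℝ)) (by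
    have h3 := hx.2.1
    have h4 := abs_nonneg B
    nlinarith) hx.2.2
  rw [← mul_assoc] at h2
  exact h2

/-- **Gonek's normalisation**: the mean of `|M|` -/
theorem gonek_mean (B : ℝ) {s : ℝ} (hs : s = 1 ∨ s = -1) (h : ∀ᶠ y : ℝ in atTop, s * MM y ≤ B * FF y) :
    ∃ C : ℝ, ∀ᶠ x : ℝ in atTop, ∫ y in x..(Real.exp 1 * x), |MM y| * y ^ (-(3 / 2 : ℝ)) ≤
      C * Real.log (Real.log (Real.log x)) ^ (5 / 4 : ℝ) := by
  obtain ⟨C, hC, h1⟩ := two_sided
  refine ⟨C * ((|B| + 1) * 4), ?_⟩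
  filter_upwards [FF_window B h] with x hx
  have h2 := h1 x hx.1 s hs ((|B| + 1) * 4 * Real.log (Real.log (Real.log x)) ^ (5 / 4 : ℝ)) (by
    have h3 := hx.2.1
    have h4 := abs_nonneg B
    nlinarith) hx.2.2
  rw [← mul_assoc] at h2
  exact h2

/-- sparse windows `[x, A x log x]` in the logarithmic form -/
theorem sparse_log {s K : ℝ} (h : ∀ A : ℝ, 0 < A → ∃ᶠ x : ℝ in atTop, ∀ y ∈ Icc x (A * x * Real.log x), s * MM y ≤ K * Real.sqrt y)
    (T : ℝ) (hT : 0 < T) : ∃ X : ℝ, 1 ≤ X ∧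
      ∀ u ∈ Icc (X - Real.log X / 2) (X + T + Real.log (X + T) / 2), s * mm u ≤ K * Real.exp (u / 2) := by
  obtain ⟨x, hx1, hx2⟩ := ((h (Real.exp (4 + 2 * T)) (Real.exp_pos _)).and_eventually (eventually_ge_atTop (Real.exp 1))).exists
  have hx0 : 0 < x := (Real.exp_pos 1).trans_le hx2
  have hL : 1 ≤ Real.log x := by rwa [Real.le_log_iff_exp_le hx0]
  set L := Real.log x with hLd
  have hL0 : 0 < L := by linarith
  have hlL0 : 0 ≤ Real.log L := Real.log_nonneg hL
  have hlL : Real.log L ≤ L - 1 := Real.log_le_sub_one_of_pos hL0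
  have hlog4 : Real.log 4 ≤ 2 := by
    have h4 : Real.log 4 = 2 * Real.log 2 := by
      rw [show (4:ℝ) = 2 ^ 2 by norm_num, Real.log_pow]
      push_cast
      ring
    rw [h4]
    have := Real.log_two_lt_d9
    linarith
  refine ⟨L + Real.log L / 2 + 1, by linarith, fun u hu => ?_⟩
  have hX0 : 0 < L + Real.log L / 2 + 1 := by positivity
  have k1 : Real.log (L + Real.log L / 2 + 1) ≤ Real.log L + 2 := by
    have h2 : L + Real.log L / 2 + 1 ≤ 4 * L := by linarith
    have h3 := Real.log_le_log hX0 h2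
    rw [Real.log_mul (by norm_num) hL0.ne'] at h3
    linarith
  have k2 : Real.log (L + Real.log L / 2 + 1 + T) ≤ Real.log L + 2 + T := by
    have h2 : L + Real.log L / 2 + 1 + T ≤ (4 * L) * (1 + T) := by nlinarith
    have h3 := Real.log_le_log (by positivity) h2
    rw [Real.log_mul (by positivity) (by positivity), Real.log_mul (by norm_num) hL0.ne'] at h3
    have h4 := Real.log_le_sub_one_of_pos (show 0 < 1 + T by positivity)
    linarith
  have k3 : L ≤ u := by linarith [hu.1]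
  have k4 : u ≤ 4 + 2 * T + (L + Real.log L) := by linarith [hu.2]
  have h1 := hx1 (Real.exp u) ⟨?_, ?_⟩
  · rw [← Real.exp_half] at h1
    exact h1
  · rw [← Real.log_le_iff_le_exp hx0]
    exact k3
  · have e1 : Real.exp (4 + 2 * T) * x * L = Real.exp (4 + 2 * T + (L + Real.log L)) := by
      rw [Real.exp_add (4 + 2 * T), Real.exp_add L, Real.exp_log hL0, hLd, Real.exp_log hx0]
      ring
    rw [e1]
    exact Real.exp_le_exp.2 k4

/-- zeros under one-sided bounds on sparse windows -/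
theorem sparse_cost {s K : ℝ} (hs : s = 1 ∨ s = -1)
    (h : ∀ A : ℝ, 0 < A → ∃ᶠ x : ℝ in atTop, ∀ y ∈ Icc x (A * x * Real.log x), s * MM y ≤ K * Real.sqrt y)
    (ρ : ℂ) (hz : riemannZeta ρ = 0) (h0 : 0 < ρ.re) (h1 : ρ.re < 1) : ρ.re = 1 / 2 ∧ deriv riemannZeta ρ ≠ 0 := by
  refine cost hs (fun ε hε => ?_) ρ hz h0 h1
  have h2 : ∀ᶠ x : ℝ in atTop, max 1 (Real.exp (|K| / ε)) ≤ x := eventually_ge_atTop _
  refine ((h 1 one_pos).and_eventually h2).mono fun x hx y hy => ?_
  rw [one_mul] at hx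
  have h3 := hx.1 y hy
  have hy1 : max 1 (Real.exp (|K| / ε)) ≤ y := hx.2.trans hy.1
  have hy0 : 0 < y := by linarith [(le_max_left 1 (Real.exp (|K| / ε))).trans hy1]
  have h4 : |K| / ε ≤ Real.log y := by
    rw [Real.le_log_iff_exp_le hy0]
    exact (le_max_right _ _).trans hy1
  rw [div_le_iff₀ hε] at h4
  rw [← Real.sqrt_eq_rpow]
  have h5 := Real.sqrt_nonneg y
  calc s * MM y ≤ K * Real.sqrt y := h3
    _ ≤ |K| * Real.sqrt y := mul_le_mul_of_nonneg_right (le_abs_self _) h5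
    _ ≤ (Real.log y * ε) * Real.sqrt y := mul_le_mul_of_nonneg_right h4 h5
    _ = _ := by ring

end

end Pool.Agent.Q212.WS
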