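import Pool.Agent.Q212.WS.C
import Pool.Agent.H313R3.TK.I

/-!
# Bessel's inequality for the Mertens function in short windows
-/

open Complex MeasureTheory Filter Topology Set Metric

set_option linter.unusedSectionVars false
set_option linter.unusedVariables false
set_option autoImplicit false

namespace Pool.Agent.Q212.WS

open H313.TK

noncomputable section

/-- the square of the normalised Mertens function -/
def hs (u : ℝ) : ℝ := mm u ^ 2 * Real.exp (-u)

theorem hs_nonneg (u : ℝ) : 0 ≤ hs u := by unfold hs; positivity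

theorem hs_le (u : ℝ) : hs u ≤ Real.exp u := by
  unfold hs
  have h1 : mm u ^ 2 ≤ Real.exp u ^ 2 := by
    rw [← sq_abs]
    exact pow_le_pow_left₀ (abs_nonneg _) (abs_mm_le u) 2
  calc mm u ^ 2 * Real.exp (-u) ≤ Real.exp u ^ 2 * Real.exp (-u) := mul_le_mul_of_nonneg_right h1 (Real.exp_pos _).le
    _ = _ := by rw [sq, mul_assoc, ← Real.exp_add, add_neg_cancel, Real.exp_zero, mul_one]

theorem hs_meas : Measurable hs := by
  have hm := mm_meas
  unfold hs
  fun_prop

theorem hs_ii (a b : ℝ) : IntervalIntegrable hs volume a b := by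
  refine ((by fun_prop : Continuous fun u : ℝ => Real.exp u).intervalIntegrable a b).mono_fun
    hs_meas.aestronglyMeasurable (ae_of_all _ fun u => ?_)
  beta_reduce
  rw [Real.norm_of_nonneg (hs_nonneg u), Real.norm_of_nonneg (Real.exp_pos _).le]
  exact hs_le u

theorem hs_on (a b : ℝ) : IntegrableOn hs (Icc a b) := by
  refine ((by fun_prop : Continuous fun u : ℝ => Real.exp u).integrableOn_Icc (a := a) (b := b)).mono'
    hs_meas.aestronglyMeasurable (ae_of_all _ fun u => ?_)
  rw [Real.norm_of_nonneg (hs_nonneg u)]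
  exact hs_le u

/-- the local mass and the local mean square -/
theorem loc2 : ∃ C : ℝ, 0 < C ∧ ∀ Z : ℝ, 1 ≤ Z → ∀ θ : ℝ, 0 < θ → θ ≤ 1 →
    Real.exp (-(Z / 2)) * Am Z ≤ θ * (∫ u in Icc (Z - Real.log Z / 2) (Z + Real.log Z / 2), hs u) + C / θ := by
  have hC0 := C0_nonneg
  have hD1 := D1_nonneg
  refine ⟨4 * C0 * (4 * C0 * D1) + 8 * C0 * D1 + 1, by positivity, fun Z hZ θ hθ hθ1 => ?_⟩
  set a : ℝ := Real.log Z / 2 with ha
  have ha0 : 0 ≤ a := by rw [ha]; have := Real.log_nonneg hZ; positivity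
  have hZ0 : 0 < Z := by linarith
  have hm := mm_meas
  have hkp := kp_cont
  have k2 := tail (fun u => |mm u|) (by fun_prop) (fun u => abs_nonneg _) (fun u => abs_mm_le u) Z a ha0
  have k2' : Am Z ≤ (∫ v in Icc (-a) a, |mm (Z - v)| * kp v) + 8 * C0 * D1 * (Real.exp (Z + a) * W (-a)) := k2
  have k4 : Real.exp (Z + a) * W (-a) ≤ Real.exp (Z / 2) := by
    unfold W
    rw [← Real.exp_add]
    refine Real.exp_le_exp.2 ?_
    rw [max_eq_right (by linarith), abs_neg, abs_of_nonneg ha0]
    have e3 : 2 * a = Real.log Z := by rw [ha]; ring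
    rw [e3, Real.exp_log hZ0]
    have h1 := Real.pi_gt_three
    have h2 : Real.log Z ≤ Z / 2 := by
      have h3 := Real.log_le_sub_one_of_pos (show 0 < Z / 2 by positivity)
      rw [Real.log_div hZ0.ne' (by norm_num)] at h3
      have h4 := Real.log_two_lt_d9
      linarith
    nlinarith
  obtain ⟨m1, m2⟩ := mass_le (1 / 2) (by norm_num) (by norm_num)
  have i0 := abs_int Z
  have i1 : IntegrableOn (fun v : ℝ => hs (Z - v)) (Icc (-a) a) := by
    have hsm := hs_meas
    refine ((by fun_prop : Continuous fun v : ℝ => Real.exp (Z - v)).integrableOn_Icc (a := -a) (b := a)).mono'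
      (by fun_prop : Measurable fun v : ℝ => hs (Z - v)).aestronglyMeasurable (ae_of_all _ fun v => ?_)
    rw [Real.norm_of_nonneg (hs_nonneg _)]
    exact hs_le _
  have k3 : ∫ v in Icc (-a) a, |mm (Z - v)| * kp v ≤
      Real.exp (Z / 2) * (θ * (∫ v in Icc (-a) a, hs (Z - v)) + 4 * C0 * (4 * C0 * D1) / (4 * θ)) := by
    have e1 : ∫ v in Icc (-a) a, |mm (Z - v)| * kp v ≤
        ∫ v in Icc (-a) a, (Real.exp (Z / 2) * θ * hs (Z - v) +
          Real.exp (Z / 2) * (4 * C0 / (4 * θ)) * (Real.exp (-(1 / 2 * v)) * kp v)) := by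
      refine setIntegral_mono_on i0.integrableOn ((i1.const_mul _).add (m1.integrableOn.const_mul _)) measurableSet_Icc
        fun v hv => ?_
      have h1 := kp_nonneg v
      have h2 : kp v ≤ 4 * C0 * Real.exp (v / 2) := by
        have := kp_le_exp (1 / 4) v (by norm_num) (by norm_num)
        rwa [show 2 * (1 / 4) * v = v / 2 by ring] at this
      set p : ℝ := |mm (Z - v)| * Real.exp (-((Z - v) / 2)) with hp
      set q : ℝ := Real.exp (-(1 / 2 * v)) * kp v with hq
      have hp2 : p ^ 2 = hs (Z - v) := by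
        rw [hp, mul_pow, sq_abs, ← Real.exp_nat_mul]
        unfold hs
        congr 2
        push_cast
        ring
      have hq0 : 0 ≤ q := by positivity
      have hq2 : q ^ 2 ≤ 4 * C0 * q := by
        have h3 : q ≤ 4 * C0 := by
          calc q = Real.exp (-(1 / 2 * v)) * kp v := rfl
            _ ≤ Real.exp (-(1 / 2 * v)) * (4 * C0 * Real.exp (v / 2)) := mul_le_mul_of_nonneg_left h2 (Real.exp_pos _).le
            _ = 4 * C0 * (Real.exp (-(1 / 2 * v)) * Real.exp (v / 2)) := by ring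
            _ = 4 * C0 := by rw [← Real.exp_add, show -(1 / 2 * v) + v / 2 = 0 by ring, Real.exp_zero, mul_one]
        nlinarith
      have hpq : |mm (Z - v)| * kp v = Real.exp (Z / 2) * (p * q) := by
        rw [hp, hq]
        have : Real.exp (Z / 2) * (Real.exp (-((Z - v) / 2)) * Real.exp (-(1 / 2 * v))) = 1 := by
          rw [← Real.exp_add, ← Real.exp_add, show Z / 2 + (-((Z - v) / 2) + -(1 / 2 * v)) = 0 by ring, Real.exp_zero]
        calc |mm (Z - v)| * kp v = (Real.exp (Z / 2) * (Real.exp (-((Z - v) / 2)) * Real.exp (-(1 / 2 * v)))) * (|mm (Z - v)| * kp v) := by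
              rw [this, one_mul]
          _ = _ := by ring
      have hab : p * q ≤ θ * p ^ 2 + q ^ 2 / (4 * θ) := by
        have h3 : 0 ≤ (2 * θ * p - q) ^ 2 / (4 * θ) := by positivity
        have h4 : (2 * θ * p - q) ^ 2 / (4 * θ) = θ * p ^ 2 + q ^ 2 / (4 * θ) - p * q := by
          field_simp
          ring
        linarith
      have h5 : q ^ 2 / (4 * θ) ≤ 4 * C0 * q / (4 * θ) := div_le_div_of_nonneg_right hq2 (by positivity)
      calc |mm (Z - v)| * kp v = Real.exp (Z / 2) * (p * q) := hpq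
        _ ≤ Real.exp (Z / 2) * (θ * p ^ 2 + 4 * C0 * q / (4 * θ)) :=
            mul_le_mul_of_nonneg_left (by linarith) (Real.exp_pos _).le
        _ = _ := by rw [hp2]; ring
    refine e1.trans ?_
    rw [integral_add (i1.const_mul _) (m1.integrableOn.const_mul _), integral_const_mul, integral_const_mul]
    have e2 : ∫ v in Icc (-a) a, Real.exp (-(1 / 2 * v)) * kp v ≤ 4 * C0 * D1 := by
      refine (setIntegral_le_integral m1 (ae_of_all _ fun v => ?_)).trans m2
      have := kp_nonneg v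
      show 0 ≤ Real.exp (-(1 / 2 * v)) * kp v
      positivity
    have e3 : 0 ≤ Real.exp (Z / 2) * (4 * C0 / (4 * θ)) := by positivity
    have e4 := mul_le_mul_of_nonneg_left e2 e3
    calc Real.exp (Z / 2) * θ * (∫ v in Icc (-a) a, hs (Z - v)) +
          Real.exp (Z / 2) * (4 * C0 / (4 * θ)) * (∫ v in Icc (-a) a, Real.exp (-(1 / 2 * v)) * kp v)
        ≤ Real.exp (Z / 2) * θ * (∫ v in Icc (-a) a, hs (Z - v)) + Real.exp (Z / 2) * (4 * C0 / (4 * θ)) * (4 * C0 * D1) := by
          linarith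
      _ = _ := by ring
  rw [refl_Icc hs Z a] at k3
  set w : ℝ := ∫ u in Icc (Z - a) (Z + a), hs u with hw
  have k8 : Real.exp (-(Z / 2)) * Real.exp (Z / 2) = 1 := by
    rw [← Real.exp_add, neg_add_cancel, Real.exp_zero]
  have k10 := Real.exp_pos (-(Z / 2))
  have hB0 : 0 ≤ 8 * C0 * D1 := by positivity
  have k6 := mul_le_mul_of_nonneg_left k4 hB0
  calc Real.exp (-(Z / 2)) * Am Z ≤
        Real.exp (-(Z / 2)) * (Real.exp (Z / 2) * (θ * w + 4 * C0 * (4 * C0 * D1) / (4 * θ)) + 8 * C0 * D1 * Real.exp (Z / 2)) :=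
        mul_le_mul_of_nonneg_left (by linarith) k10.le
    _ = (Real.exp (-(Z / 2)) * Real.exp (Z / 2)) * (θ * w + 4 * C0 * (4 * C0 * D1) / (4 * θ) + 8 * C0 * D1) := by ring
    _ = θ * w + 4 * C0 * (4 * C0 * D1) / (4 * θ) + 8 * C0 * D1 := by rw [k8, one_mul]
    _ ≤ θ * w + (4 * C0 * (4 * C0 * D1) + 8 * C0 * D1 + 1) / θ := by
        have e1 : 4 * C0 * (4 * C0 * D1) / (4 * θ) ≤ 4 * C0 * (4 * C0 * D1) / θ := by
          refine div_le_div_of_nonneg_left (by positivity) hθ (by linarith)
        have e2 : 8 * C0 * D1 ≤ 8 * C0 * D1 / θ := by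
          rw [le_div_iff₀ hθ]
          nlinarith
        have e3 : 0 ≤ 1 / θ := by positivity
        have e4 : (4 * C0 * (4 * C0 * D1) + 8 * C0 * D1 + 1) / θ = 4 * C0 * (4 * C0 * D1) / θ + 8 * C0 * D1 / θ + 1 / θ := by
          ring
        rw [e4]
        linarith

end

end Pool.Agent.Q212.WS
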