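import Pool.Agent.Q212.WS.E

/-!
# Bessel's inequality in short windows
-/

open Complex MeasureTheory Filter Topology Set Metric

set_option linter.unusedSectionVars false
set_option linter.unusedVariables false
set_option autoImplicit false

namespace Pool.Agent.Q212.WS

open H313.TK

noncomputable section

theorem base (l : ℝ) (hl : riemannZeta (1 / 2 + l * I) = 0 → deriv riemannZeta (1 / 2 + l * I) ≠ 0) :
    ∃ C : ℝ, 0 < C ∧ ∀ Z : ℝ, 0 ≤ Z →
      ‖Ph (1 / 2 + l * I) Z - cf l * Z‖ ≤ C * (1 + Real.exp (-(Z / 2)) * Am Z) := by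
  have hρ : (1 / 2 + l * I : ℂ).re = 1 / 2 := by simp
  by_cases hz : riemannZeta (1 / 2 + l * I) = 0
  · have := at_zero _ hρ hz (hl hz)
    unfold cf
    rw [if_pos hz]
    exact this
  · have := away _ hρ hz
    unfold cf
    rw [if_neg hz]
    simpa using this

/-- the integral of `M` against a trigonometric polynomial -/
theorem int_tp (L : Finset ℝ) (a : ℝ → ℂ) (X Y : ℝ) :
    ∫ u in X..Y, (Real.exp (-(u / 2)) * mm u) * tp L a u =
      (∑ l ∈ L, a l * (Ph (1 / 2 + l * I) Y - Ph (1 / 2 + l * I) X)).re := by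
  have hre : ∀ l : ℝ, (1 / 2 + l * I : ℂ).re = 1 / 2 := fun l => by simp
  have hii : ∀ l : ℝ, IntervalIntegrable (fun u : ℝ => cexp (-(1 / 2 + l * I) * u) * (mm u : ℂ)) volume X Y :=
    fun l => tw_ii _ (hre l) _ _
  have hJ1 : ∀ l : ℝ, ∫ u in X..Y, cexp (-(1 / 2 + l * I) * u) * (mm u : ℂ) =
      Ph (1 / 2 + l * I) Y - Ph (1 / 2 + l * I) X := by
    intro l
    unfold Ph
    rw [intervalIntegral.integral_interval_sub_left (tw_ii _ (hre l) _ _) (tw_ii _ (hre l) _ _)]
  have h1 : ∑ l ∈ L, a l * (Ph (1 / 2 + l * I) Y - Ph (1 / 2 + l * I) X) =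
      ∫ u in X..Y, ∑ l ∈ L, a l * (cexp (-(1 / 2 + l * I) * u) * (mm u : ℂ)) := by
    rw [intervalIntegral.integral_finsetSum fun l _ => (hii l).const_mul _]
    refine Finset.sum_congr rfl fun l _ => ?_
    rw [intervalIntegral.integral_const_mul, hJ1]
  have h2 : IntervalIntegrable (fun u : ℝ => ∑ l ∈ L, a l * (cexp (-(1 / 2 + l * I) * u) * (mm u : ℂ))) volume X Y := by
    have := IntervalIntegrable.sum L (f := fun l => fun u : ℝ => a l * (cexp (-(1 / 2 + l * I) * u) * (mm u : ℂ)))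
      (μ := volume) (a := X) (b := Y) fun l _ => (hii l).const_mul _
    refine this.congr (fun u _ => ?_)
    simp [Finset.sum_apply]
  rw [h1]
  have h3 := Complex.reCLM.intervalIntegral_comp_comm h2
  rw [Complex.reCLM_apply] at h3
  rw [← h3]
  refine intervalIntegral.integral_congr fun u _ => ?_
  simp only [Complex.reCLM_apply]
  unfold tp
  have h4 : ∑ l ∈ L, a l * (cexp (-(1 / 2 + l * I) * u) * (mm u : ℂ)) =
      ((Real.exp (-(u / 2)) * mm u : ℝ) : ℂ) * ∑ l ∈ L, a l * cexp (-(l * I) * u) := by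
    rw [Finset.mul_sum]
    refine Finset.sum_congr rfl fun l _ => ?_
    have h5 : cexp (-(1 / 2 + l * I) * u) = cexp (-(u / 2)) * cexp (-(l * I) * u) := by
      rw [← Complex.exp_add]
      congr 1
      ring
    rw [h5]
    push_cast
    ring
  rw [h4, Complex.re_ofReal_mul]

/-- the mean square of a trigonometric polynomial -/
theorem int_sq (L : Finset ℝ) (c : ℝ → ℂ) : ∃ G : ℝ, 0 ≤ G ∧ ∀ X Y : ℝ, X ≤ Y →
    ∫ u in X..Y, (tp L (fun l => (starRingEnd ℂ) (c l)) u) ^ 2 ≤ (Y - X) * (∑ l ∈ L, ‖c l‖ ^ 2) + G := by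
  choose D hD hmean using exp_mean
  refine ⟨∑ l ∈ L, ∑ m ∈ L, ‖c l‖ * ‖c m‖ * D (l - m), Finset.sum_nonneg fun l _ => Finset.sum_nonneg fun m _ =>
    mul_nonneg (by positivity) (hD _), fun X Y hXY => ?_⟩
  set Q : ℝ → ℂ := fun u => ∑ l ∈ L, (starRingEnd ℂ) (c l) * cexp (-(l * I) * u) with hQ
  have hQc : Continuous Q := by rw [hQ]; fun_prop
  have htp : ∀ u, tp L (fun l => (starRingEnd ℂ) (c l)) u = (Q u).re := fun u => rfl
  have h1 : ∫ u in X..Y, (tp L (fun l => (starRingEnd ℂ) (c l)) u) ^ 2 ≤ ∫ u in X..Y, ‖Q u‖ ^ 2 := by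
    refine intervalIntegral.integral_mono_on hXY (((tp_cont _ _).pow 2).intervalIntegrable _ _)
      ((hQc.norm.pow 2).intervalIntegrable _ _) fun u _ => ?_
    rw [htp, ← sq_abs]
    exact pow_le_pow_left₀ (abs_nonneg _) (Complex.abs_re_le_norm _) 2
  refine h1.trans ?_
  have h2 : ∀ u : ℝ, ‖Q u‖ ^ 2 = (∑ l ∈ L, ∑ m ∈ L, (starRingEnd ℂ) (c l) * c m * cexp (-(((l - m : ℝ) : ℂ) * I) * u)).re := by
    intro u
    have e1 : Q u * (starRingEnd ℂ) (Q u) = ((‖Q u‖ ^ 2 : ℝ) : ℂ) := by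
      rw [Complex.mul_conj, Complex.normSq_eq_norm_sq]
    have e2 : (starRingEnd ℂ) (Q u) = ∑ m ∈ L, c m * cexp (m * I * u) := by
      rw [hQ, map_sum]
      refine Finset.sum_congr rfl fun m _ => ?_
      rw [map_mul, Complex.conj_conj, ← Complex.exp_conj]
      congr 2
      simp
    have e3 : Q u * (starRingEnd ℂ) (Q u) = ∑ l ∈ L, ∑ m ∈ L, (starRingEnd ℂ) (c l) * c m * cexp (-(((l - m : ℝ) : ℂ) * I) * u) := by
      rw [e2, hQ, Finset.sum_mul_sum]
      refine Finset.sum_congr rfl fun l _ => Finset.sum_congr rfl fun m _ => ?_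
      have e4 : cexp (-(((l - m : ℝ) : ℂ) * I) * u) = cexp (-(l * I) * u) * cexp (m * I * u) := by
        rw [← Complex.exp_add]
        congr 1
        push_cast
        ring
      rw [e4]
      ring
    rw [← e3, e1, Complex.ofReal_re]
  have hci : ∀ l m : ℝ, IntervalIntegrable (fun u : ℝ => (starRingEnd ℂ) (c l) * c m * cexp (-(((l - m : ℝ) : ℂ) * I) * u)) volume X Y :=
    fun l m => (by fun_prop : Continuous fun u : ℝ => (starRingEnd ℂ) (c l) * c m * cexp (-(((l - m : ℝ) : ℂ) * I) * u)).intervalIntegrable _ _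
  have h3 : ∫ u in X..Y, ‖Q u‖ ^ 2 = (∑ l ∈ L, ∑ m ∈ L, (starRingEnd ℂ) (c l) * c m *
      ∫ u in X..Y, cexp (-(((l - m : ℝ) : ℂ) * I) * u)).re := by
    have hI : IntervalIntegrable (fun u : ℝ => ∑ l ∈ L, ∑ m ∈ L, (starRingEnd ℂ) (c l) * c m * cexp (-(((l - m : ℝ) : ℂ) * I) * u)) volume X Y :=
      (by fun_prop : Continuous fun u : ℝ => ∑ l ∈ L, ∑ m ∈ L, (starRingEnd ℂ) (c l) * c m * cexp (-(((l - m : ℝ) : ℂ) * I) * u)).intervalIntegrable _ _
    have e1 : ∑ l ∈ L, ∑ m ∈ L, (starRingEnd ℂ) (c l) * c m * ∫ u in X..Y, cexp (-(((l - m : ℝ) : ℂ) * I) * u) =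
        ∫ u in X..Y, ∑ l ∈ L, ∑ m ∈ L, (starRingEnd ℂ) (c l) * c m * cexp (-(((l - m : ℝ) : ℂ) * I) * u) := by
      rw [intervalIntegral.integral_finsetSum fun l _ =>
        (by fun_prop : Continuous fun u : ℝ => ∑ m ∈ L, (starRingEnd ℂ) (c l) * c m * cexp (-(((l - m : ℝ) : ℂ) * I) * u)).intervalIntegrable _ _]
      refine Finset.sum_congr rfl fun l _ => ?_
      rw [intervalIntegral.integral_finsetSum fun m _ => hci l m]
      refine Finset.sum_congr rfl fun m _ => ?_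
      rw [intervalIntegral.integral_const_mul]
    rw [e1]
    have e2 := Complex.reCLM.intervalIntegral_comp_comm hI
    rw [Complex.reCLM_apply] at e2
    rw [← e2]
    refine intervalIntegral.integral_congr fun u _ => ?_
    simp only [Complex.reCLM_apply]
    exact h2 u
  rw [h3]
  have h4 : (∑ l ∈ L, ∑ m ∈ L, (starRingEnd ℂ) (c l) * c m * ∫ u in X..Y, cexp (-(((l - m : ℝ) : ℂ) * I) * u)).re =
      (Y - X) * (∑ l ∈ L, ‖c l‖ ^ 2) + (∑ l ∈ L, ∑ m ∈ L, (starRingEnd ℂ) (c l) * c m *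
        ((∫ u in X..Y, cexp (-(((l - m : ℝ) : ℂ) * I) * u)) - (if l - m = 0 then (1:ℂ) else 0) * ((Y - X : ℝ) : ℂ))).re := by
    have e1 : ∑ l ∈ L, ∑ m ∈ L, (starRingEnd ℂ) (c l) * c m * ((if l - m = 0 then (1:ℂ) else 0) * ((Y - X : ℝ) : ℂ)) =
        (((Y - X) * (∑ l ∈ L, ‖c l‖ ^ 2) : ℝ) : ℂ) := by
      push_cast
      rw [Finset.mul_sum]
      refine Finset.sum_congr rfl fun l hl => ?_
      rw [Finset.sum_eq_single l]
      · rw [if_pos (sub_self l), one_mul, ← Complex.normSq_eq_conj_mul_self, Complex.normSq_eq_norm_sq]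
        push_cast
        ring
      · intro m _ hm
        rw [if_neg (sub_ne_zero.2 (Ne.symm hm))]
        ring
      · intro h
        exact absurd hl h
    have e2 : ∑ l ∈ L, ∑ m ∈ L, (starRingEnd ℂ) (c l) * c m * ∫ u in X..Y, cexp (-(((l - m : ℝ) : ℂ) * I) * u) =
        (((Y - X) * (∑ l ∈ L, ‖c l‖ ^ 2) : ℝ) : ℂ) + ∑ l ∈ L, ∑ m ∈ L, (starRingEnd ℂ) (c l) * c m *
        ((∫ u in X..Y, cexp (-(((l - m : ℝ) : ℂ) * I) * u)) - (if l - m = 0 then (1:ℂ) else 0) * ((Y - X : ℝ) : ℂ)) := by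
      rw [← e1, ← Finset.sum_add_distrib]
      refine Finset.sum_congr rfl fun l _ => ?_
      rw [← Finset.sum_add_distrib]
      refine Finset.sum_congr rfl fun m _ => ?_
      ring
    rw [e2, Complex.add_re, Complex.ofReal_re]
  rw [h4]
  refine add_le_add le_rfl ((Complex.re_le_norm _).trans ((norm_sum_le _ _).trans (Finset.sum_le_sum fun l _ =>
    (norm_sum_le _ _).trans (Finset.sum_le_sum fun m _ => ?_))))
  rw [norm_mul, norm_mul, Complex.norm_conj]
  exact mul_le_mul_of_nonneg_left (hmean (l - m) X Y hXY) (by positivity)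

/-- **Bessel's inequality in short windows.** -/
theorem bessel (L : Finset ℝ)
    (hL : ∀ l ∈ L, riemannZeta (1 / 2 + l * I) = 0 → deriv riemannZeta (1 / 2 + l * I) ≠ 0) :
    ∃ C1 : ℝ, 0 ≤ C1 ∧ ∀ θ : ℝ, 0 < θ → θ ≤ 1 → ∃ C2 : ℝ, ∀ X : ℝ, 1 ≤ X → ∀ T : ℝ, 0 < T →
      T * (∑ l ∈ L, ‖cf l‖ ^ 2) - C2 ≤
        (1 + C1 * θ) * ∫ u in Icc (X - Real.log X / 2) (X + T + Real.log (X + T) / 2), hs u := by
  have hb : ∀ l : ℝ, ∃ C : ℝ, 0 < C ∧ (l ∈ L → ∀ Z : ℝ, 0 ≤ Z →
      ‖Ph (1 / 2 + l * I) Z - cf l * Z‖ ≤ C * (1 + Real.exp (-(Z / 2)) * Am Z)) := by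
    intro l
    by_cases hl : l ∈ L
    · obtain ⟨C, hC, h⟩ := base l (hL l hl)
      exact ⟨C, hC, fun _ => h⟩
    · exact ⟨1, one_pos, fun h => absurd h hl⟩
  choose C hC hmain using hb
  obtain ⟨C0', hC0', hloc⟩ := loc2
  obtain ⟨G, hG, hsq⟩ := int_sq L cf
  set E : ℝ := ∑ l ∈ L, ‖cf l‖ * C l with hE
  have hE0 : 0 ≤ E := Finset.sum_nonneg fun l _ => mul_nonneg (norm_nonneg _) (hC l).le
  refine ⟨4 * E, by positivity, fun θ hθ hθ1 => ⟨4 * E * (1 + C0' / θ) + G, fun X hX T hT => ?_⟩⟩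
  set S : ℝ := ∑ l ∈ L, ‖cf l‖ ^ 2 with hS
  set W : ℝ := ∫ u in Icc (X - Real.log X / 2) (X + T + Real.log (X + T) / 2), hs u with hW
  have hlog0 : 0 ≤ Real.log X := Real.log_nonneg hX
  have hlog1 : Real.log X ≤ Real.log (X + T) := Real.log_le_log (by linarith) (by linarith)
  have hlog2 : Real.log (X + T) - Real.log X ≤ T := by
    rw [← Real.log_div (by linarith) (by linarith)]
    have h1 : (X + T) / X = 1 + T / X := by field_simp
    have h2 : T / X ≤ T := div_le_self hT.le hX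
    have h3 : 0 < T / X := by positivity
    rw [h1]
    have := Real.log_le_sub_one_of_pos (show 0 < 1 + T / X by positivity)
    linarith
  have hmono : ∀ p q : ℝ, X - Real.log X / 2 ≤ p → q ≤ X + T + Real.log (X + T) / 2 → ∫ u in Icc p q, hs u ≤ W := by
    intro p q hp hq
    exact setIntegral_mono_set (hs_on _ _) (ae_of_all _ fun u => hs_nonneg u) (Icc_subset_Icc hp hq).eventuallyLE
  -- the local masses
  have m1 : Real.exp (-(X / 2)) * Am X ≤ θ * W + C0' / θ := by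
    refine (hloc X hX θ hθ hθ1).trans ?_
    have := hmono (X - Real.log X / 2) (X + Real.log X / 2) le_rfl (by linarith)
    have := mul_le_mul_of_nonneg_left this hθ.le
    linarith
  have m2 : Real.exp (-((X + T) / 2)) * Am (X + T) ≤ θ * W + C0' / θ := by
    refine (hloc (X + T) (by linarith) θ hθ hθ1).trans ?_
    have := hmono (X + T - Real.log (X + T) / 2) (X + T + Real.log (X + T) / 2) (by linarith) le_rfl
    have := mul_le_mul_of_nonneg_left this hθ.le
    linarith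
  -- Bessel
  have htp := tp_cont L (fun l => (starRingEnd ℂ) (cf l))
  have hm := mm_meas
  have hsm := hs_meas
  have htp2 : IntervalIntegrable (fun u : ℝ => (tp L (fun l => (starRingEnd ℂ) (cf l)) u) ^ 2) volume X (X + T) :=
    (htp.pow 2).intervalIntegrable _ _
  have b1 : 2 * ∫ u in X..(X + T), (Real.exp (-(u / 2)) * mm u) * tp L (fun l => (starRingEnd ℂ) (cf l)) u ≤
      (∫ u in X..(X + T), hs u) + ∫ u in X..(X + T), (tp L (fun l => (starRingEnd ℂ) (cf l)) u) ^ 2 := by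
    rw [← intervalIntegral.integral_add (hs_ii _ _) htp2, ← intervalIntegral.integral_const_mul]
    refine intervalIntegral.integral_mono_on (by linarith) ?_ ((hs_ii _ _).add htp2) fun u _ => ?_
    · refine IntervalIntegrable.const_mul ?_ _
      refine ((by fun_prop : Continuous fun u : ℝ => Real.exp (-(u / 2)) * Real.exp u * |tp L (fun l => (starRingEnd ℂ) (cf l)) u|).intervalIntegrable X (X + T)).mono_fun
        (by fun_prop : Measurable fun u : ℝ => (Real.exp (-(u / 2)) * mm u) * tp L (fun l => (starRingEnd ℂ) (cf l)) u).aestronglyMeasurable (ae_of_all _ fun u => ?_)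
      beta_reduce
      rw [norm_mul, norm_mul, norm_mul, norm_mul, Real.norm_eq_abs, Real.norm_eq_abs, Real.norm_eq_abs, Real.norm_eq_abs,
        Real.norm_eq_abs, abs_of_pos (Real.exp_pos _), abs_of_pos (Real.exp_pos u), abs_abs]
      exact mul_le_mul_of_nonneg_right (mul_le_mul_of_nonneg_left (abs_mm_le u) (Real.exp_pos _).le) (abs_nonneg _)
    · have h1 : (Real.exp (-(u / 2)) * mm u) ^ 2 = hs u := by
        unfold hs
        rw [mul_pow, ← Real.exp_nat_mul, mul_comm]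
        congr 2
        push_cast
        ring
      rw [← h1]
      nlinarith [sq_nonneg (Real.exp (-(u / 2)) * mm u - tp L (fun l => (starRingEnd ℂ) (cf l)) u)]
  have b2 := hsq X (X + T) (by linarith)
  rw [add_sub_cancel_left] at b2
  have b3 : ∫ u in X..(X + T), hs u ≤ W := by
    rw [intervalIntegral.integral_of_le (by linarith), ← integral_Icc_eq_integral_Ioc]
    exact hmono X (X + T) (by linarith) (by linarith)
  rw [int_tp] at b1
  -- the main term
  have b4 : T * S - E * (2 + 2 * (θ * W + C0' / θ)) ≤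
      (∑ l ∈ L, (starRingEnd ℂ) (cf l) * (Ph (1 / 2 + l * I) ((X + T : ℝ)) - Ph (1 / 2 + l * I) X)).re := by
    have e1 : ∑ l ∈ L, (starRingEnd ℂ) (cf l) * (Ph (1 / 2 + l * I) ((X + T : ℝ)) - Ph (1 / 2 + l * I) X) =
        ((T * S : ℝ) : ℂ) + ∑ l ∈ L, (starRingEnd ℂ) (cf l) *
          ((Ph (1 / 2 + l * I) ((X + T : ℝ)) - cf l * ((X + T : ℝ) : ℂ)) - (Ph (1 / 2 + l * I) X - cf l * X)) := by
      rw [hS]
      push_cast
      rw [Finset.mul_sum, ← Finset.sum_add_distrib]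
      refine Finset.sum_congr rfl fun l _ => ?_
      have e2 : ((‖cf l‖ : ℂ)) ^ 2 = (starRingEnd ℂ) (cf l) * cf l := by
        rw [← Complex.normSq_eq_conj_mul_self, Complex.normSq_eq_norm_sq]
        push_cast
        ring
      rw [e2]
      ring
    rw [e1, Complex.add_re, Complex.ofReal_re]
    have e3 : ‖∑ l ∈ L, (starRingEnd ℂ) (cf l) *
          ((Ph (1 / 2 + l * I) ((X + T : ℝ)) - cf l * ((X + T : ℝ) : ℂ)) - (Ph (1 / 2 + l * I) X - cf l * X))‖ ≤
        E * (2 + 2 * (θ * W + C0' / θ)) := by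
      refine (norm_sum_le _ _).trans ?_
      rw [hE, Finset.sum_mul]
      refine Finset.sum_le_sum fun l hl => ?_
      rw [norm_mul, Complex.norm_conj, mul_assoc]
      refine mul_le_mul_of_nonneg_left ?_ (norm_nonneg _)
      have f1 := hmain l hl (X + T) (by linarith)
      have f2 := hmain l hl X (by linarith)
      refine (norm_sub_le _ _).trans ((add_le_add f1 f2).trans ?_)
      rw [← mul_add]
      refine mul_le_mul_of_nonneg_left ?_ (hC l).le
      linarith
    have e4 := (abs_le.1 ((Complex.abs_re_le_norm _).trans e3)).1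
    linarith
  have b5 : 0 ≤ E * (θ * W) := by
    refine mul_nonneg hE0 (mul_nonneg hθ.le ?_)
    exact setIntegral_nonneg measurableSet_Icc fun u _ => hs_nonneg u
  nlinarith

end

end Pool.Agent.Q212.WS
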