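import Pool.Agent.Q212.WS.F
import Pool.Agent.H313R3.TK.J

/-!
# Mean squares over windows `[x, z]` with `z ≥ x (log x)^{1+η}`
-/

open Complex MeasureTheory Filter Topology Set Metric

set_option linter.unusedSectionVars false
set_option linter.unusedVariables false
set_option autoImplicit false

namespace Pool.Agent.Q212.WS

open H313.TK

noncomputable section

/-- `∫_a^b (M(u)/u)² du` -/
def ms (a b : ℝ) : ℝ := ∫ u in a..b, (MM u / u) ^ 2

theorem ms_eq {a b : ℝ} (ha : 0 < a) (hab : a ≤ b) : ms a b = ∫ v in Icc (Real.log a) (Real.log b), hs v := by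
  have himg : Real.exp '' Ioc (Real.log a) (Real.log b) = Ioc a b := by
    ext y
    constructor
    · rintro ⟨u, hu, rfl⟩
      exact ⟨by rw [← Real.log_lt_iff_lt_exp ha]; exact hu.1,
        by rw [← Real.le_log_iff_exp_le (ha.trans_le hab)]; exact hu.2⟩
    · intro hy
      have hy0 : 0 < y := ha.trans hy.1
      exact ⟨Real.log y, ⟨Real.log_lt_log ha hy.1, Real.log_le_log hy0 hy.2⟩, Real.exp_log hy0⟩
  unfold ms
  rw [intervalIntegral.integral_of_le hab, ← himg,
      integral_image_eq_integral_abs_deriv_smul measurableSet_Ioc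
        (fun u _ => (Real.hasDerivAt_exp u).hasDerivWithinAt) Real.exp_injective.injOn, integral_Icc_eq_integral_Ioc]
  refine setIntegral_congr_fun measurableSet_Ioc fun u _ => ?_
  rw [abs_of_pos (Real.exp_pos u), smul_eq_mul]
  unfold hs mm
  rw [Real.exp_neg]
  have := Real.exp_pos u
  field_simp

theorem ms_nonneg {a b : ℝ} (ha : 0 < a) (hab : a ≤ b) : 0 ≤ ms a b := by
  rw [ms_eq ha hab]
  exact setIntegral_nonneg measurableSet_Icc fun u _ => hs_nonneg u

theorem ms_add {a b c : ℝ} (ha : 0 < a) (hab : a ≤ b) (hbc : b ≤ c) : ms a c = ms a b + ms b c := by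
  have hb : 0 < b := ha.trans_le hab
  rw [ms_eq ha (hab.trans hbc), ms_eq ha hab, ms_eq hb hbc, integral_Icc_eq_integral_Ioc, integral_Icc_eq_integral_Ioc,
    integral_Icc_eq_integral_Ioc, ← intervalIntegral.integral_of_le (Real.log_le_log ha (hab.trans hbc)),
    ← intervalIntegral.integral_of_le (Real.log_le_log ha hab), ← intervalIntegral.integral_of_le (Real.log_le_log hb hbc),
    intervalIntegral.integral_add_adjacent_intervals (hs_ii _ _) (hs_ii _ _)]

/-- the length that remains after cutting the edges -/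
theorem edges {η ε : ℝ} (hη : 0 < η) (hε : 0 < ε) : ∀ᶠ x : ℝ in atTop, ∀ z : ℝ, x * Real.log x ^ (1 + η) ≤ z →
    x ≤ z ∧ (1 + η) * Real.log (Real.log x) ≤ Real.log (z / x) ∧
    Real.log (Real.log z) ≤ Real.log (Real.log x) + ε * Real.log (z / x) ∧
    (η / (1 + η) - ε) * Real.log (z / x) ≤
      Real.log (z / x) - (Real.log (Real.log x) + Real.log (Real.log z)) / 2 - 2 := by
  have t2 : Tendsto (fun y : ℝ => Real.log (Real.log y)) atTop atTop :=
    Real.tendsto_log_atTop.comp Real.tendsto_log_atTop
  filter_upwards [Real.tendsto_log_atTop.eventually_ge_atTop (max 1 (1 / ε)), t2.eventually_ge_atTop (max 1 (4 / ε)),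
    eventually_ge_atTop 1] with x h1 h2 hx z hz
  have hx0 : 0 < x := by linarith
  have hl1 : 1 ≤ Real.log x := (le_max_left _ _).trans h1
  have hl2 : 1 / ε ≤ Real.log x := (le_max_right _ _).trans h1
  have hll1 : 1 ≤ Real.log (Real.log x) := (le_max_left _ _).trans h2
  have hll2 : 4 / ε ≤ Real.log (Real.log x) := (le_max_right _ _).trans h2
  have hl0 : 0 < Real.log x := by linarith
  have hp1 : 1 ≤ Real.log x ^ (1 + η) := Real.one_le_rpow hl1 (by linarith)
  have hxz : x ≤ z := by
    refine le_trans ?_ hz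
    exact le_mul_of_one_le_right hx0.le hp1
  have hz0 : 0 < z := by linarith
  have hL : (1 + η) * Real.log (Real.log x) ≤ Real.log (z / x) := by
    rw [← Real.log_rpow hl0]
    refine Real.log_le_log (by positivity) ?_
    rw [le_div_iff₀ hx0]
    linarith
  set L := Real.log (z / x) with hLd
  have hLz : Real.log z = Real.log x + L := by
    rw [hLd, Real.log_div hz0.ne' hx0.ne']
    ring
  have hL0 : 0 < L := by
    have : 0 < (1 + η) * Real.log (Real.log x) := by positivity
    linarith
  have hlz : Real.log (Real.log z) ≤ Real.log (Real.log x) + ε * L := by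
    have e1 : Real.log z = Real.log x * (1 + L / Real.log x) := by
      rw [hLz]
      field_simp
    rw [e1, Real.log_mul hl0.ne' (by positivity)]
    have e2 := Real.log_le_sub_one_of_pos (show 0 < 1 + L / Real.log x by positivity)
    have e3 : L / Real.log x ≤ ε * L := by
      rw [div_le_iff₀ hl0]
      rw [div_le_iff₀ hε] at hl2
      nlinarith
    linarith
  refine ⟨hxz, hL, hlz, ?_⟩
  have e4 : Real.log (Real.log x) ≤ L / (1 + η) := by
    rw [le_div_iff₀ (by linarith)]
    linarith
  have e5 : 4 ≤ ε * L := by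
    rw [div_le_iff₀ hε] at hll2
    have : Real.log (Real.log x) ≤ L := by nlinarith
    nlinarith
  have e6 : (η / (1 + η) - ε) * L = L - L / (1 + η) - ε * L := by
    field_simp
    ring
  rw [e6]
  linarith

/-- **the lower bound from simple zeros** -/
theorem lower (Lf : Finset ℝ)
    (hL : ∀ l ∈ Lf, riemannZeta (1 / 2 + l * I) = 0 → deriv riemannZeta (1 / 2 + l * I) ≠ 0) {η c : ℝ} (hη : 0 < η)
    (hc : c < η / (1 + η) * ∑ l ∈ Lf, ‖cf l‖ ^ 2) :
    ∀ᶠ x : ℝ in atTop, ∀ z : ℝ, x * Real.log x ^ (1 + η) ≤ z → c * Real.log (z / x) ≤ ms x z := by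
  obtain ⟨C1, hC1, hbes⟩ := bessel Lf hL
  set S : ℝ := ∑ l ∈ Lf, ‖cf l‖ ^ 2 with hS
  have hS0 : 0 ≤ S := Finset.sum_nonneg fun l _ => by positivity
  set κ : ℝ := η / (1 + η) with hκ
  have hκ0 : 0 < κ := by rw [hκ]; positivity
  set g : ℝ := κ * S - c with hg
  have hg0 : 0 < g := by rw [hg]; linarith
  set ε : ℝ := min (κ / 2) (g / (4 * (S + 1))) with hε
  have hε0 : 0 < ε := lt_min (by positivity) (by positivity)
  have hεS : ε * S ≤ g / 4 := by
    have h1 : ε ≤ g / (4 * (S + 1)) := min_le_right _ _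
    calc ε * S ≤ g / (4 * (S + 1)) * S := mul_le_mul_of_nonneg_right h1 hS0
      _ = g / 4 * (S / (S + 1)) := by field_simp
      _ ≤ g / 4 * 1 := mul_le_mul_of_nonneg_left ((div_le_one (by linarith)).2 (by linarith)) (by positivity)
      _ = g / 4 := mul_one _
  have hεκ : ε ≤ κ / 2 := min_le_left _ _
  set θ : ℝ := min 1 (g / (4 * (C1 + 1) * (|c| + 1))) with hθ
  have hθ0 : 0 < θ := lt_min one_pos (by positivity)
  have hθ1 : θ ≤ 1 := min_le_left _ _
  have hθc : C1 * θ * c ≤ g / 4 := by
    have h1 : θ ≤ g / (4 * (C1 + 1) * (|c| + 1)) := min_le_right _ _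
    calc C1 * θ * c ≤ C1 * θ * |c| := mul_le_mul_of_nonneg_left (le_abs_self c) (by positivity)
      _ ≤ (C1 + 1) * θ * (|c| + 1) := by
          have := abs_nonneg c
          have h2 : 0 ≤ θ * (C1 + |c| + 1) := by positivity
          nlinarith
      _ ≤ (C1 + 1) * (g / (4 * (C1 + 1) * (|c| + 1))) * (|c| + 1) := by gcongr
      _ = g / 4 := by field_simp
  obtain ⟨C2, hC2⟩ := hbes θ hθ0 hθ1
  have t2 : Tendsto (fun y : ℝ => Real.log (Real.log y)) atTop atTop :=
    Real.tendsto_log_atTop.comp Real.tendsto_log_atTop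
  filter_upwards [edges hη hε0, t2.eventually_ge_atTop (max 1 (2 * |C2| / g)), eventually_ge_atTop (Real.exp 1)]
    with x h1 h2 hx z hz
  obtain ⟨hxz, hLx, hlz, hT⟩ := h1 z hz
  have hx0 : 0 < x := (Real.exp_pos 1).trans_le hx
  have hz0 : 0 < z := by linarith
  have hlx1 : 1 ≤ Real.log x := by rwa [Real.le_log_iff_exp_le hx0]
  have hll1 : 1 ≤ Real.log (Real.log x) := (le_max_left _ _).trans h2
  have hll2 : 2 * |C2| / g ≤ Real.log (Real.log x) := (le_max_right _ _).trans h2
  have hLeq : Real.log (z / x) = Real.log z - Real.log x := Real.log_div hz0.ne' hx0.ne'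
  set L := Real.log (z / x) with hLd
  have hL1 : Real.log (Real.log x) ≤ L := by nlinarith
  have hL0 : 0 < L := by linarith
  set lx := Real.log x with hlx
  have hlx0 : 0 < lx := by linarith
  set X : ℝ := lx + Real.log lx / 2 + 1 with hX
  set T : ℝ := L - (Real.log lx + Real.log (Real.log z)) / 2 - 2 with hTd
  have hT0 : 0 < T := by
    have : 0 < (κ - ε) * L := mul_pos (by linarith) hL0
    linarith
  have hX1 : 1 ≤ X := by rw [hX]; linarith
  have hY : X + T = Real.log z - Real.log (Real.log z) / 2 - 1 := by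
    rw [hX, hTd, hLeq]
    ring
  have hlog4 : Real.log 4 ≤ 2 := by
    have h4 : Real.log 4 = 2 * Real.log 2 := by
      rw [show (4:ℝ) = 2 ^ 2 by norm_num, Real.log_pow]
      push_cast
      ring
    rw [h4]
    have := Real.log_two_lt_d9
    linarith
  have k1 : Real.log X ≤ Real.log lx + 2 := by
    have h3 : Real.log lx ≤ lx - 1 := Real.log_le_sub_one_of_pos hlx0
    have h2 : X ≤ 4 * lx := by rw [hX]; linarith
    have h3 := Real.log_le_log (by linarith) h2
    rw [Real.log_mul (by norm_num) hlx0.ne'] at h3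
    linarith
  have hlzx : lx ≤ Real.log z := by
    have := Real.log_le_log hx0 hxz
    exact this
  have hllz : 0 ≤ Real.log (Real.log z) := Real.log_nonneg (by linarith)
  have k2 : Real.log (X + T) ≤ Real.log (Real.log z) := by
    refine Real.log_le_log (by linarith) ?_
    rw [hY]
    linarith
  have k3 : ∫ u in Icc (X - Real.log X / 2) (X + T + Real.log (X + T) / 2), hs u ≤ ms x z := by
    rw [ms_eq hx0 hxz]
    refine setIntegral_mono_set (hs_on _ _) (ae_of_all _ fun u => hs_nonneg u) (Icc_subset_Icc ?_ ?_).eventuallyLE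
    · show lx ≤ _
      rw [hX]
      rw [hX] at k1
      linarith
    · rw [hY]
      rw [hY] at k2
      linarith
  have k4 := hC2 X hX1 T hT0
  have k5 : (1 + C1 * θ) * ∫ u in Icc (X - Real.log X / 2) (X + T + Real.log (X + T) / 2), hs u ≤ (1 + C1 * θ) * ms x z :=
    mul_le_mul_of_nonneg_left k3 (by positivity)
  have k6 : (κ - ε) * L * S ≤ T * S := mul_le_mul_of_nonneg_right hT hS0
  have k7 : |C2| ≤ g / 2 * L := by
    rw [div_le_iff₀ hg0] at hll2
    nlinarith
  have k8 := le_abs_self C2
  -- conclusion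
  have hpos : 0 < 1 + C1 * θ := by positivity
  have k9 : (1 + C1 * θ) * (c * L) ≤ (1 + C1 * θ) * ms x z := by
    have e1 : (1 + C1 * θ) * (c * L) = c * L + (C1 * θ * c) * L := by ring
    have e2 : (C1 * θ * c) * L ≤ g / 4 * L := mul_le_mul_of_nonneg_right hθc hL0.le
    have e3 : (ε * S) * L ≤ g / 4 * L := mul_le_mul_of_nonneg_right hεS hL0.le
    have e4 : g * L = κ * S * L - c * L := by rw [hg]; ring
    have e5 : (κ - ε) * L * S = κ * S * L - (ε * S) * L := by ring
    rw [e1]
    linarith
  exact le_of_mul_le_mul_left k9 hpos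

/-- the chain of windows `[x, x log x]` -/
theorem chain {B x0 : ℝ} (hx0 : Real.exp (Real.exp 1) ≤ x0) (hB : 0 ≤ B)
    (h : ∀ x : ℝ, x0 ≤ x → B * Real.log (Real.log x) ≤ ms x (x * Real.log x)) :
    ∀ n : ℕ, ∀ x z : ℝ, x0 ≤ x → x ≤ z → Real.log (z / x) ≤ n →
      B * (Real.log (z / x) - Real.log (Real.log z)) ≤ ms x z := by
  intro n
  induction n with
  | zero =>
    intro x z hx hxz hL
    have hxp : 0 < x := (Real.exp_pos _).trans_le (hx0.trans hx)
    have hlz : Real.exp 1 ≤ Real.log z := by
      rw [Real.le_log_iff_exp_le (by linarith)]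
      linarith
    have hllz : 0 ≤ Real.log (Real.log z) := Real.log_nonneg (by linarith [Real.add_one_le_exp (1:ℝ)])
    have h1 := ms_nonneg hxp hxz
    push_cast at hL
    nlinarith
  | succ n ih =>
    intro x z hx hxz hL
    have hxp : 0 < x := (Real.exp_pos _).trans_le (hx0.trans hx)
    have hlx : Real.exp 1 ≤ Real.log x := by
      rw [Real.le_log_iff_exp_le hxp]
      linarith
    have hlx0 : 0 < Real.log x := (Real.exp_pos 1).trans_le hlx
    have hllx : 1 ≤ Real.log (Real.log x) := by rwa [Real.le_log_iff_exp_le hlx0]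
    have hxlx : x ≤ x * Real.log x := le_mul_of_one_le_right hxp.le (by linarith [Real.add_one_le_exp (1:ℝ)])
    rcases le_total z (x * Real.log x) with hz | hz
    · have h1 := ms_nonneg hxp hxz
      have hz0 : 0 < z := by linarith
      have h2 : Real.log (z / x) ≤ Real.log (Real.log x) := by
        refine Real.log_le_log (by positivity) ?_
        rw [div_le_iff₀ hxp]
        linarith
      have h3 : Real.log (Real.log x) ≤ Real.log (Real.log z) :=
        Real.log_le_log hlx0 (Real.log_le_log hxp hxz)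
      nlinarith
    · have hz0 : 0 < z := by linarith
      have h1 := h x hx
      have hx' : 0 < x * Real.log x := by positivity
      have e1 : Real.log (z / (x * Real.log x)) = Real.log (z / x) - Real.log (Real.log x) := by
        rw [Real.log_div hz0.ne' hx'.ne', Real.log_div hz0.ne' hxp.ne', Real.log_mul hxp.ne' hlx0.ne']
        ring
      have h2 := ih (x * Real.log x) z (hx.trans hxlx) hz (by
        rw [e1]
        push_cast at hL
        linarith)
      rw [e1] at h2
      rw [ms_add hxp hxlx hz]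
      nlinarith

/-- **the lower bound from a bad zero** -/
theorem lower_bad (ρ : ℂ) (hz : riemannZeta ρ = 0) (h0 : 1 / 2 ≤ ρ.re) (h1 : ρ.re < 1)
    (hbad : 1 / 2 < ρ.re ∨ deriv riemannZeta ρ = 0) {η B : ℝ} (hη : 0 < η) (hB : 0 ≤ B) :
    ∀ᶠ x : ℝ in atTop, ∀ z : ℝ, x * Real.log x ^ (1 + η) ≤ z → B * Real.log (z / x) ≤ ms x z := by
  set κ : ℝ := η / (1 + η) with hκ
  have hκ0 : 0 < κ := by rw [hκ]; positivity
  set B' : ℝ := 2 * B / κ with hB'
  have hB'0 : 0 ≤ B' := by positivity
  -- the windows `[x, x log x]`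
  have hpart : ∀ x : ℝ, 1 ≤ x → 0 ≤ Real.log x → x ≤ x * Real.log x →
      ∫ y in x..(x * Real.log x), (max (1 * MM y) 0 / y) ^ 2 ≤ ms x (x * Real.log x) := by
    intro x hx1 _ hxl
    have hM := MM_meas
    unfold ms
    have hb : ∀ y : ℝ, |MM y| ≤ |y| + 1 := by
      intro y
      rcases le_total 0 y with h | h
      · rw [abs_of_nonneg h]
        linarith [abs_MM_le h]
      · rw [MM_lt_one (by linarith)]
        simp
        positivity
    have hI : ∀ f : ℝ → ℝ, Measurable f → (∀ y, |f y| ≤ |MM y|) →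
        IntervalIntegrable (fun y => (f y / y) ^ 2) volume x (x * Real.log x) := by
      intro f hf hfb
      rw [intervalIntegrable_iff_integrableOn_Ioc_of_le hxl]
      refine ((by fun_prop : Continuous fun y : ℝ => (|y| + 1) ^ 2).integrableOn_Ioc).mono'
        (by fun_prop : Measurable fun y : ℝ => (f y / y) ^ 2).aestronglyMeasurable ?_
      refine (ae_restrict_iff' measurableSet_Ioc).2 (ae_of_all _ fun y hy => ?_)
      have hy1 : 1 ≤ y := by linarith [hy.1]
      rw [Real.norm_of_nonneg (by positivity), ← sq_abs (f y / y), abs_div]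
      refine pow_le_pow_left₀ (by positivity) ?_ 2
      rw [abs_of_pos (by linarith : 0 < y)]
      calc |f y| / y ≤ |f y| := div_le_self (abs_nonneg _) hy1
        _ ≤ |y| + 1 := (hfb y).trans (hb y)
        _ = y + 1 := by rw [abs_of_pos (by linarith : 0 < y)]
    refine intervalIntegral.integral_mono_on hxl (hI (fun y => max (1 * MM y) 0) (by fun_prop) (fun y => ?_))
      (hI MM hM fun y => le_rfl) fun y hy => ?_
    · exact part_le 1 (Or.inl rfl) (MM y)
    · have h2 := part_le 1 (Or.inl rfl) (MM y)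
      rw [div_pow, div_pow]
      refine div_le_div_of_nonneg_right ?_ (by positivity)
      rw [← sq_abs, ← sq_abs (MM y)]
      exact pow_le_pow_left₀ (abs_nonneg _) h2 2
  have hwin : ∀ᶠ x : ℝ in atTop, B' * Real.log (Real.log x) ≤ ms x (x * Real.log x) := by
    have hk : ∀ᶠ x : ℝ in atTop, B' * Real.log (Real.log x) ≤ ∫ y in x..(x * Real.log x), (max (1 * MM y) 0 / y) ^ 2 := by
      rcases hbad with hb | hb
      · obtain ⟨c, hc, hev⟩ := sq_low1 ρ hz h0 h1
        have h2 := (isLittleO_log_rpow_atTop (show 0 < 2 * ρ.re - 1 by linarith)).bound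
          (show 0 < c / (B' + 1) by positivity)
        filter_upwards [hev, h2, Real.tendsto_log_atTop.eventually_ge_atTop 1, eventually_ge_atTop 1] with x hx hx2 hx3 hx4
        refine le_trans ?_ (hx 1 (Or.inl rfl))
        have hx0 : 0 < x := by linarith
        rw [Real.norm_of_nonneg (by linarith), Real.norm_of_nonneg (by positivity)] at hx2
        have h5 : Real.log (Real.log x) ≤ Real.log x := (Real.log_le_sub_one_of_pos (by linarith)).trans (by linarith)
        have h6 : (B' + 1) * Real.log x ≤ c * x ^ (2 * ρ.re - 1) := by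
          calc (B' + 1) * Real.log x ≤ (B' + 1) * (c / (B' + 1) * x ^ (2 * ρ.re - 1)) :=
                mul_le_mul_of_nonneg_left hx2 (by positivity)
            _ = _ := by field_simp
        have h7 := mul_le_mul_of_nonneg_left h5 hB'0
        have h8 : 0 ≤ Real.log x := by linarith
        nlinarith
      · obtain ⟨c, hc, hev⟩ := sq_low2 ρ hz hb h0 h1
        filter_upwards [hev, Real.tendsto_log_atTop.eventually_ge_atTop (max 1 (B' / c)), eventually_ge_atTop 1] with x hx hx3 hx4
        refine le_trans ?_ (hx 1 (Or.inl rfl))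
        have hx0 : 0 < x := by linarith
        have hl1 : 1 ≤ Real.log x := (le_max_left _ _).trans hx3
        have hl2 : B' / c ≤ Real.log x := (le_max_right _ _).trans hx3
        rw [div_le_iff₀ hc] at hl2
        have h5 : Real.log (Real.log x) ≤ Real.log x := (Real.log_le_sub_one_of_pos (by linarith)).trans (by linarith)
        have h6 : 1 ≤ x ^ (2 * ρ.re - 1) := Real.one_le_rpow hx4 (by linarith)
        have h7 := mul_le_mul_of_nonneg_left h5 hB'0
        have h8 : B' * Real.log x ≤ c * Real.log x ^ 2 := by nlinarith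
        have h9 : c * Real.log x ^ 2 ≤ c * (Real.log x ^ 2 * x ^ (2 * ρ.re - 1)) :=
          mul_le_mul_of_nonneg_left (le_mul_of_one_le_right (by positivity) h6) hc.le
        linarith
    filter_upwards [hk, Real.tendsto_log_atTop.eventually_ge_atTop 1, eventually_ge_atTop 1] with x hx hx1 hx2
    exact hx.trans (hpart x hx2 (by linarith) (le_mul_of_one_le_right (by linarith) hx1))
  obtain ⟨x1, hx1⟩ := eventually_atTop.mp hwin
  have hch := chain (B := B') (x0 := max x1 (Real.exp (Real.exp 1))) (le_max_right _ _) hB'0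
    fun x hx => hx1 x ((le_max_left _ _).trans hx)
  have t2 : Tendsto (fun y : ℝ => Real.log (Real.log y)) atTop atTop :=
    Real.tendsto_log_atTop.comp Real.tendsto_log_atTop
  filter_upwards [edges hη (show 0 < κ / 2 by positivity), eventually_ge_atTop (max x1 (Real.exp (Real.exp 1))),
    t2.eventually_ge_atTop 1] with x hx hxx hll z hzz
  obtain ⟨hxz, hLx, hlz, hT⟩ := hx z hzz
  obtain ⟨n, hn⟩ := exists_nat_ge (Real.log (z / x))
  have h2 := hch n x z hxx hxz hn
  set L := Real.log (z / x) with hLd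
  have hL0 : 0 ≤ L := by nlinarith
  have h3 : Real.log (Real.log x) ≤ L / (1 + η) := by
    rw [le_div_iff₀ (by linarith)]
    linarith
  have h4 : κ / 2 * L ≤ L - Real.log (Real.log z) := by
    have e1 : L - L / (1 + η) = κ * L := by
      rw [hκ]
      field_simp
      ring
    linarith
  have h5 : B * L = B' * (κ / 2 * L) := by
    rw [hB']
    field_simp
  rw [h5]
  exact (mul_le_mul_of_nonneg_left h4 hB'0).trans h2

end

end Pool.Agent.Q212.WS
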